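import Pool.Agent.NH52.LS.Stm

/-!
# The archimedean part of the height of a root
-/

set_option autoImplicit false
set_option linter.unusedSectionVars false

namespace Pool.Agent.NH52.LS

open NumberField IsDedekindDomain Polynomial

namespace Arc

/-- the polynomial with given coefficients -/
noncomputable def pol {d : ℕ} (c : Fin (d + 1) → ℂ) : ℂ[X] := ∑ i, C (c i) * X ^ (i : ℕ)

theorem coeff_pol {d : ℕ} (c : Fin (d + 1) → ℂ) (i : Fin (d + 1)) :
    (pol c).coeff (i : ℕ) = c i := by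
  unfold pol
  rw [finsetSum_coeff, Finset.sum_eq_single i]
  · simp
  · intro b _ hb
    rw [coeff_C_mul_X_pow]
    rw [if_neg]
    intro h
    exact hb (Fin.ext h.symm)
  · intro h
    exact absurd (Finset.mem_univ i) h

theorem coeff_pol' {d : ℕ} (c : Fin (d + 1) → ℂ) (n : ℕ) (hn : d < n) :
    (pol c).coeff n = 0 := by
  unfold pol
  rw [finsetSum_coeff]
  apply Finset.sum_eq_zero
  intro i _
  rw [coeff_C_mul_X_pow, if_neg]
  intro h
  have := i.isLt
  omega

theorem natDegree_pol {d : ℕ} (c : Fin (d + 1) → ℂ) (hc : c (Fin.last d) ≠ 0) :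
    (pol c).natDegree = d := by
  apply le_antisymm
  · rw [natDegree_le_iff_coeff_eq_zero]
    intro n hn
    exact coeff_pol' c n hn
  · apply le_natDegree_of_ne_zero
    have := coeff_pol c (Fin.last d)
    rw [Fin.val_last] at this
    rw [this]
    exact hc

theorem leadingCoeff_pol {d : ℕ} (c : Fin (d + 1) → ℂ) (hc : c (Fin.last d) ≠ 0) :
    (pol c).leadingCoeff = c (Fin.last d) := by
  rw [leadingCoeff, natDegree_pol c hc]
  have := coeff_pol c (Fin.last d)
  rwa [Fin.val_last] at this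

theorem mahler_pol {d : ℕ} (c : Fin (d + 1) → ℂ) (hc : c (Fin.last d) ≠ 0) (Y : ℝ)
    (hY : ∀ i, ‖c i‖ ≤ Y) : (pol c).mahlerMeasure ≤ (d + 1 : ℝ) * Y := by
  refine (mahlerMeasure_le_sum_norm_coeff _).trans ?_
  rw [sum_over_range' (pol c) (by intro n; simp) (d + 1) (by rw [natDegree_pol c hc]; omega)]
  rw [Finset.sum_range]
  calc ∑ i : Fin (d + 1), ‖(pol c).coeff (i : ℕ)‖ ≤ ∑ _i : Fin (d + 1), Y := by
        apply Finset.sum_le_sum
        intro i _
        rw [coeff_pol]
        exact hY i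
    _ = (d + 1 : ℝ) * Y := by simp

/-- the inequality at one embedding of `K` -/
theorem loc {K L : Type} [Field K] [Field L] [Algebra K L] [FiniteDimensional K L]
    [Algebra K ℂ] {d : ℕ} (c : Fin (d + 1) → K) (hc : c (Fin.last d) ≠ 0) (j : L)
    (hj : ∑ i, algebraMap K L (c i) * j ^ (i : ℕ) = 0)
    (ht : IntermediateField.adjoin K {j} = ⊤) (Y : ℝ) (hY : ∀ i, ‖algebraMap K ℂ (c i)‖ ≤ Y) :
    ∑ s : L →ₐ[K] ℂ, Real.log (max ‖s j‖ 1) ≤
      Real.log ((d + 1 : ℝ) * Y) - Real.log ‖algebraMap K ℂ (c (Fin.last d))‖ := by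
  classical
  set a : Fin (d + 1) → ℂ := fun i => algebraMap K ℂ (c i) with ha
  have hc' : a (Fin.last d) ≠ 0 := by
    rw [ha]
    simpa using hc
  have hinj : Function.Injective (fun s : L →ₐ[K] ℂ => s j) := by
    intro s t hst
    have h1 : Algebra.adjoin K {j} = ⊤ := by
      apply Algebra.adjoin_eq_top_of_intermediateField _ ht
      intro x _
      exact Algebra.IsAlgebraic.isAlgebraic x
    apply AlgHom.ext_of_adjoin_eq_top h1
    intro x hx
    rw [Set.mem_singleton_iff] at hx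
    rw [hx]
    exact hst
  have hp0 : pol a ≠ 0 := by
    intro h
    have h1 := leadingCoeff_pol a hc'
    rw [h, leadingCoeff_zero] at h1
    exact hc' h1.symm
  have hroot : ∀ s : L →ₐ[K] ℂ, (pol a).eval (s j) = 0 := by
    intro s
    unfold pol
    rw [eval_finsetSum]
    have h1 := congrArg s hj
    rw [map_sum, map_zero] at h1
    rw [← h1]
    apply Finset.sum_congr rfl
    intro i _
    simp [ha]
  have hle : (Finset.univ.val.map (fun s : L →ₐ[K] ℂ => s j)) ≤ (pol a).roots := by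
    rw [Multiset.le_iff_subset]
    · intro x hx
      rw [Multiset.mem_map] at hx
      obtain ⟨s, _, rfl⟩ := hx
      rw [mem_roots hp0]
      exact hroot s
    · exact (Multiset.nodup_map_iff_of_injective hinj).2 Finset.univ.nodup
  have hmm := mahler_pol a hc' Y hY
  have h2 : (∑ s : L →ₐ[K] ℂ, Real.log (max ‖s j‖ 1)) ≤
      ((pol a).roots.map (fun z => Real.posLog ‖z‖)).sum := by
    obtain ⟨u, hu⟩ := Multiset.le_iff_exists_add.1 hle
    rw [hu, Multiset.map_add, Multiset.sum_add]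
    have h3 : (∑ s : L →ₐ[K] ℂ, Real.log (max ‖s j‖ 1)) =
        ((Finset.univ.val.map (fun s : L →ₐ[K] ℂ => s j)).map
          (fun z => Real.posLog ‖z‖)).sum := by
      rw [Multiset.map_map]
      show _ = ∑ s : L →ₐ[K] ℂ, _
      apply Finset.sum_congr rfl
      intro s _
      rw [Function.comp_apply, Real.posLog_eq_log_max_one (norm_nonneg _), max_comm]
    rw [h3]
    have h4 : 0 ≤ (u.map (fun z => Real.posLog ‖z‖)).sum := by
      apply Multiset.sum_nonneg
      intro x hx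
      rw [Multiset.mem_map] at hx
      obtain ⟨z, _, rfl⟩ := hx
      exact Real.posLog_nonneg
    linarith
  have h5 := logMahlerMeasure_eq_log_leadingCoeff_add_sum_log_roots (pol a)
  rw [leadingCoeff_pol a hc', logMahlerMeasure_eq_log_MahlerMeasure] at h5
  have h6 : Real.log (pol a).mahlerMeasure ≤ Real.log ((d + 1 : ℝ) * Y) :=
    Real.log_le_log (mahlerMeasure_pos_of_ne_zero hp0) hmm
  have h7 : a (Fin.last d) = algebraMap K ℂ (c (Fin.last d)) := rfl
  rw [h7] at h5
  linarith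

section Ext

variable {L : Type} [Field L] [NumberField L]

/-- sums over the embeddings and over the places -/
theorem sum_emb (f : ℝ → ℝ) (x : L) :
    ∑ σ : L →ₐ[ℚ] ℂ, f ‖σ x‖ = ∑ w : InfinitePlace L, (w.mult : ℝ) * f (w x) := by
  classical
  rw [← Fintype.sum_equiv (RingHom.equivRatAlgHom L ℂ) (fun φ => f ‖φ x‖)
      (fun φ => f ‖φ x‖) fun _ => by simp [RingHom.equivRatAlgHom_apply]]
  rw [← Finset.sum_fiberwise Finset.univ InfinitePlace.mk (fun φ => f ‖φ x‖)]
  have (w : InfinitePlace L) (φ) (hφ : φ ∈ ({φ | InfinitePlace.mk φ = w} : Finset _)) :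
      f ‖φ x‖ = f (w x) := by rw [← (Finset.mem_filter.mp hφ).2, InfinitePlace.apply]
  simp_rw [Finset.sum_congr rfl (this _), Finset.sum_const, InfinitePlace.card_filter_mk_eq,
    nsmul_eq_mul]

end Ext

theorem norm_lead {K : Type} [Field K] [NumberField K] (x : 𝓞 K) (hx : x ≠ 0) :
    ∑ τ : K →ₐ[ℚ] ℂ, Real.log ‖τ (x : K)‖ =
      Real.log (Ideal.absNorm (Ideal.span {x})) := by
  have h1 : ∏ τ : K →ₐ[ℚ] ℂ, ‖τ (x : K)‖ = (Ideal.absNorm (Ideal.span {x}) : ℝ) := by
    rw [← norm_prod, ← Algebra.norm_eq_prod_embeddings ℚ ℂ, Ideal.absNorm_span_singleton]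
    have h2 : (Algebra.norm ℚ (x : K)) = ((Algebra.norm ℤ x : ℤ) : ℚ) :=
      (Algebra.coe_norm_int x).symm
    rw [h2]
    rw [Nat.cast_natAbs]
    simp
  rw [← h1, Real.log_prod]
  intro τ _
  rw [norm_ne_zero_iff]
  simpa using hx

end Arc

set_option backward.isDefEq.respectTransparency false in
theorem t_ARC (h : S_NRM) : S_ARC := by
  intro K _ _ L _ _ _ d f j Y hr hf
  classical
  have hfd : FiniteDimensional K L := Module.Finite.of_restrictScalars_finite ℚ K L
  have h0 : f (Fin.last d) ≠ 0 := (h K L d f j hr).1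
  obtain ⟨-, hj, ht, -⟩ := hr
  rw [← Arc.sum_emb (fun t => Real.log (max t 1)) j]
  rw [Fintype.sum_equiv (algHomEquivSigma (A := ℚ) (B := K) (C := L) (D := ℂ))
    (fun σ => Real.log (max ‖σ j‖ 1)) (fun σ => Real.log (max ‖σ.2 j‖ 1)) (fun σ => rfl),
    ← Finset.univ_sigma_univ, Finset.sum_sigma]
  have hc : (f (Fin.last d) : K) ≠ 0 := by
    simpa using h0
  have key : ∀ τ : K →ₐ[ℚ] ℂ,
      (∑ s : @AlgHom K L ℂ _ _ _ _ τ.toRingHom.toAlgebra, Real.log (max ‖s j‖ 1)) ≤
        Real.log ((d + 1 : ℝ) * Y) - Real.log ‖τ (f (Fin.last d) : K)‖ := by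
    intro τ
    let _ : Algebra K ℂ := τ.toRingHom.toAlgebra
    exact Arc.loc (fun i => (f i : K)) hc j hj ht Y (fun i => hf i τ.toRingHom)
  refine (Finset.sum_le_sum (fun τ _ => key τ)).trans (le_of_eq ?_)
  rw [Finset.sum_sub_distrib, Arc.norm_lead _ h0, Finset.sum_const, Finset.card_univ,
    AlgHom.card ℚ K ℂ, nsmul_eq_mul]
  rfl

end Pool.Agent.NH52.LS
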