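import Pool.Agent.NH52.LS.Stm

/-!
# Large primes (LS-3)
-/

set_option autoImplicit false
set_option linter.unusedSectionVars false

namespace Pool.Agent.NH52.LS

open NumberField IsDedekindDomain

namespace Big39

variable {L : Type} [Field L] [NumberField L]

lemma mem_den {j : L} {x : 𝓞 L} :
    x ∈ den j ↔ ∃ y : 𝓞 L, algebraMap (𝓞 L) L x * j = algebraMap (𝓞 L) L y := Iff.rfl

open scoped nonZeroDivisors in
/-- the denominators and the numerators are coprime -/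
lemma one_eq (j : L) : ∃ a ∈ den j, ∃ b ∈ den j,
    algebraMap (𝓞 L) L a + algebraMap (𝓞 L) L b * j = 1 := by
  obtain ⟨I, hI⟩ : ∃ I : FractionalIdeal (𝓞 L)⁰ L, I =
    FractionalIdeal.spanSingleton (𝓞 L)⁰ (1 : L) + FractionalIdeal.spanSingleton (𝓞 L)⁰ j := ⟨_, rfl⟩
  have h1 : (1 : L) ∈ I := by
    rw [hI, FractionalIdeal.mem_add]
    exact ⟨1, FractionalIdeal.mem_spanSingleton_self _ _, 0, FractionalIdeal.zero_mem _, by simp⟩
  have hj : j ∈ I := by
    rw [hI, FractionalIdeal.mem_add]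
    exact ⟨0, FractionalIdeal.zero_mem _, j, FractionalIdeal.mem_spanSingleton_self _ _, by simp⟩
  have hI0 : I ≠ 0 := by
    rintro h0
    rw [h0, FractionalIdeal.mem_zero_iff] at h1
    exact one_ne_zero h1
  have hinv : I * I⁻¹ = 1 := mul_inv_cancel₀ hI0
  have hden : ∀ x ∈ I⁻¹, ∃ a ∈ den j, algebraMap (𝓞 L) L a = x := by
    intro x hx
    rw [FractionalIdeal.mem_inv_iff hI0] at hx
    have h2 := hx 1 h1
    have h3 := hx j hj
    rw [mul_one, FractionalIdeal.mem_one_iff] at h2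
    rw [FractionalIdeal.mem_one_iff] at h3
    obtain ⟨a, ha⟩ := h2
    obtain ⟨y, hy⟩ := h3
    exact ⟨a, mem_den.2 ⟨y, by rw [ha, hy]⟩, ha⟩
  have h4 : (1 : L) ∈ I * I⁻¹ := by
    rw [hinv]
    exact FractionalIdeal.one_mem_one _
  have h5 : I * I⁻¹ = FractionalIdeal.spanSingleton (𝓞 L)⁰ (1 : L) * I⁻¹ +
      FractionalIdeal.spanSingleton (𝓞 L)⁰ j * I⁻¹ := by
    rw [← add_mul, ← hI]
  rw [h5, FractionalIdeal.mem_add] at h4
  obtain ⟨u, hu, v, hv, huv⟩ := h4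
  rw [FractionalIdeal.mem_singleton_mul] at hu hv
  obtain ⟨u', hu', rfl⟩ := hu
  obtain ⟨v', hv', rfl⟩ := hv
  obtain ⟨a, ha, ha'⟩ := hden u' hu'
  obtain ⟨b, hb, hb'⟩ := hden v' hv'
  exact ⟨a, ha, b, hb, by rw [ha', hb', ← huv]; ring⟩

lemma den_ne (j : L) : ∃ m ∈ den j, m ≠ 0 := by
  obtain ⟨a, ha, b, hb, h⟩ := one_eq j
  by_cases h0 : a = 0
  · refine ⟨b, hb, fun hb0 => ?_⟩
    rw [h0, hb0] at h
    simp at h
  · exact ⟨a, ha, h0⟩

/-- the numerators of `t - j` -/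
def nI (j : L) (t : 𝓞 L) : Ideal (𝓞 L) where
  carrier := {z | ∃ x ∈ den j, algebraMap (𝓞 L) L z =
    algebraMap (𝓞 L) L x * (algebraMap (𝓞 L) L t - j)}
  add_mem' := by
    rintro a b ⟨x, hx, hx'⟩ ⟨y, hy, hy'⟩
    exact ⟨x + y, (den j).add_mem hx hy, by rw [map_add, map_add, hx', hy']; ring⟩
  zero_mem' := ⟨0, (den j).zero_mem, by simp⟩
  smul_mem' := by
    rintro c a ⟨x, hx, hx'⟩
    exact ⟨c * x, (den j).mul_mem_left c hx, by rw [smul_eq_mul, map_mul, map_mul, hx']; ring⟩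

/-- `x (t - j)` is integral -/
lemma exists_nI {j : L} (t : 𝓞 L) {x : 𝓞 L} (hx : x ∈ den j) :
    ∃ z ∈ nI j t, algebraMap (𝓞 L) L z = algebraMap (𝓞 L) L x * (algebraMap (𝓞 L) L t - j) := by
  obtain ⟨y, hy⟩ := mem_den.1 hx
  have e : algebraMap (𝓞 L) L (x * t - y) =
      algebraMap (𝓞 L) L x * (algebraMap (𝓞 L) L t - j) := by
    rw [map_sub, map_mul, ← hy]
    ring
  exact ⟨x * t - y, ⟨x, hx, e⟩, e⟩

lemma coprime {j : L} {t : 𝓞 L} {w : Ideal (𝓞 L)} (hw : w ≠ ⊤) (h : nI j t ≤ w) :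
    ¬ den j ≤ w := by
  intro hd
  obtain ⟨a, ha, b, hb, hab⟩ := one_eq j
  obtain ⟨z, hz, hz'⟩ := exists_nI t hb
  have h1 : (1 : 𝓞 L) = (a + b * t) - z := by
    apply RingOfIntegers.coe_injective
    simp only [map_mul, map_sub, map_add, map_one]
    rw [hz', ← hab]
    ring
  apply hw
  rw [Ideal.eq_top_iff_one, h1]
  exact w.sub_mem (w.add_mem (hd ha) (w.mul_mem_right _ (hd hb))) (h hz)

lemma class_eq {j : L} {t t' : 𝓞 L} {w : Ideal (𝓞 L)} (hw : w.IsPrime) (h : nI j t ≤ w)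
    (h' : nI j t' ≤ w) : t - t' ∈ w := by
  have hd := coprime hw.ne_top h
  obtain ⟨x, hx, hxw⟩ := SetLike.not_le_iff_exists.1 hd
  obtain ⟨z, hz, hz'⟩ := exists_nI t hx
  obtain ⟨z2, hz2, hz2'⟩ := exists_nI t' hx
  have h1 : x * (t - t') = z - z2 := by
    apply RingOfIntegers.coe_injective
    simp only [map_mul, map_sub]
    rw [hz', hz2']
    ring
  have h2 : x * (t - t') ∈ w := by
    rw [h1]
    exact w.sub_mem (h hz) (h' hz2)
  exact (hw.mem_or_mem h2).resolve_left hxw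

variable {K : Type} [Field K] [NumberField K] [Algebra K L]

/-- a prime which divides the norm of an ideal is below a prime which divides the ideal -/
lemma above {v : Ideal (𝓞 K)} (hv : v.IsMaximal) (hv0 : v ≠ ⊥) {I : Ideal (𝓞 L)}
    (h : v ∣ Ideal.relNorm (𝓞 K) I) : ∃ w : Ideal (𝓞 L), w.IsPrime ∧ w.LiesOver v ∧ I ≤ w := by
  by_cases hI : I = ⊥
  · obtain ⟨Q, hQ1, hQ2⟩ := Ideal.exists_maximal_ideal_liesOver_of_isIntegral (S := 𝓞 L) v
    exact ⟨Q, hQ1.isPrime, hQ2, by rw [hI]; exact bot_le⟩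
  have hp : Prime v := Ideal.prime_of_isPrime hv0 hv.isPrime
  rw [← Ideal.prod_normalizedFactors_eq_self hI, map_multiset_prod] at h
  obtain ⟨P, hP, hvP⟩ := hp.exists_mem_multiset_map_dvd h
  have hP' : P ≠ ⊥ := UniqueFactorizationMonoid.ne_zero_of_mem_normalizedFactors hP
  rw [Ideal.mem_normalizedFactors_iff hI] at hP
  haveI : P.IsPrime := hP.1
  haveI : P.IsMaximal := Ring.DimensionLEOne.maximalOfPrime hP' hP.1
  obtain ⟨s, hs⟩ := Ideal.exists_relNorm_eq_pow_of_isPrime P (P.under (𝓞 K))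
  rw [hs] at hvP
  have h1 := hp.dvd_of_dvd_pow hvP
  have h2 : P.under (𝓞 K) ≤ v := Ideal.dvd_iff_le.1 h1
  haveI h3 : (P.under (𝓞 K)).IsMaximal := inferInstance
  have h4 : P.under (𝓞 K) = v := h3.eq_of_le hv.ne_top h2
  exact ⟨P, hP.1, ⟨h4.symm⟩, hP.2⟩

/-- the choice of `t` -/
lemma exists_t {d : ℕ} (hd : Module.finrank K L = d) (j : L) {v : Ideal (𝓞 K)}
    (hv : v.IsMaximal) (hv0 : v ≠ ⊥) (hN : d < Ideal.absNorm v) :
    ∃ t : 𝓞 K, ¬ v ∣ Ideal.relNorm (𝓞 K) (nI j (algebraMap (𝓞 K) (𝓞 L) t)) := by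
  classical
  by_contra hcon
  push Not at hcon
  choose w hw1 hw2 hw3 using fun t => above hv hv0 (hcon t)
  have hmem : ∀ t a : 𝓞 K, algebraMap (𝓞 K) (𝓞 L) a ∈ w t → a ∈ v := by
    intro t a h
    rw [(hw2 t).over]
    exact h
  haveI : NoZeroSMulDivisors (𝓞 K) (𝓞 L) := ⟨fun {c x} h => by
    rw [Algebra.smul_def, mul_eq_zero] at h
    exact h.imp (fun h' => (FaithfulSMul.algebraMap_injective (𝓞 K) (𝓞 L))
      (by rw [h', map_zero])) id⟩
  have hinj : Function.Injective (fun c : 𝓞 K ⧸ v =>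
      (⟨w c.out, (IsDedekindDomain.mem_primesOverFinset_iff hv0 (𝓞 L)).2 ⟨hw1 _, hw2 _⟩⟩ :
        IsDedekindDomain.primesOverFinset v (𝓞 L))) := by
    intro c c' hcc
    have h1 : w c.out = w c'.out := congrArg Subtype.val hcc
    have h2 := hw3 c'.out
    rw [← h1] at h2
    have h3 := class_eq (hw1 c.out) (hw3 c.out) h2
    rw [← map_sub] at h3
    have h4 : c.out - c'.out ∈ v := hmem _ _ h3
    rw [← Quotient.out_eq c, ← Quotient.out_eq c']
    exact Ideal.Quotient.eq.2 h4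
  have h5 := Ideal.card_primesOverFinset_le_finrank (𝓞 L) K L hv0
  rw [hd] at h5
  have h6 := Nat.card_le_card_of_injective _ hinj
  have h7 : Nat.card (IsDedekindDomain.primesOverFinset v (𝓞 L)) =
      (IsDedekindDomain.primesOverFinset v (𝓞 L)).card := by
    rw [Nat.card_eq_fintype_card, Fintype.card_coe]
  rw [Ideal.absNorm_apply, Submodule.cardQuot_apply] at hN
  omega

/-- the identity of the norms -/
lemma ident (hNRM : S_NRM) {d : ℕ} {f : Fin (d + 1) → 𝓞 K} {j : L} (hf : IsRoot f j) (t : 𝓞 K) :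
    ∃ g : 𝓞 K, lead f * Ideal.relNorm (𝓞 K) (nI j (algebraMap (𝓞 K) (𝓞 L) t)) =
      Ideal.span {g} * Ideal.relNorm (𝓞 K) (den j) := by
  obtain ⟨hf0, hF⟩ := hNRM K L d f j hf
  obtain ⟨g, hg⟩ : ∃ g : 𝓞 K, g = ∑ i, f i * t ^ (i : ℕ) := ⟨_, rfl⟩
  have hgK : algebraMap (𝓞 K) K g = algebraMap (𝓞 K) K (f (Fin.last d)) *
      Algebra.norm K (algebraMap K L (algebraMap (𝓞 K) K t) - j) := by
    have h1 := hF (algebraMap (𝓞 K) K t)
    rw [hg, map_sum]
    refine Eq.trans ?_ h1.symm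
    refine Finset.sum_congr rfl fun i _ => ?_
    rw [map_mul, map_pow]
  refine ⟨g, ?_⟩
  obtain ⟨m, hm, hm0⟩ := den_ne j
  obtain ⟨y, hy, hy'⟩ := exists_nI (algebraMap (𝓞 K) (𝓞 L) t) hm
  have htt : algebraMap (𝓞 L) L (algebraMap (𝓞 K) (𝓞 L) t) =
      algebraMap K L (algebraMap (𝓞 K) K t) := rfl
  have e1 : Ideal.span {y} * den j = Ideal.span {m} * nI j (algebraMap (𝓞 K) (𝓞 L) t) := by
    ext x
    rw [Ideal.mem_span_singleton_mul, Ideal.mem_span_singleton_mul]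
    constructor
    · rintro ⟨z, hz, rfl⟩
      obtain ⟨z', hz', hz''⟩ := exists_nI (algebraMap (𝓞 K) (𝓞 L) t) hz
      refine ⟨z', hz', ?_⟩
      apply RingOfIntegers.coe_injective
      simp only [map_mul]
      rw [hz'', hy']
      ring
    · rintro ⟨z, ⟨x', hx', hx''⟩, rfl⟩
      refine ⟨x', hx', ?_⟩
      apply RingOfIntegers.coe_injective
      simp only [map_mul]
      rw [hx'', hy']
      ring
  have e2 := congrArg (Ideal.relNorm (𝓞 K)) e1
  rw [map_mul, map_mul, Ideal.relNorm_singleton, Ideal.relNorm_singleton] at e2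
  have e3 : f (Fin.last d) * Algebra.intNorm (𝓞 K) (𝓞 L) y =
      Algebra.intNorm (𝓞 K) (𝓞 L) m * g := by
    apply RingOfIntegers.coe_injective
    simp only [map_mul]
    rw [Algebra.algebraMap_intNorm (K := K) (L := L) y, Algebra.algebraMap_intNorm (K := K) (L := L) m,
      hy', map_mul, hgK, htt]
    ring
  have hm1 : Algebra.intNorm (𝓞 K) (𝓞 L) m ≠ 0 := Algebra.intNorm_ne_zero.2 hm0
  have hm2 : (Ideal.span {Algebra.intNorm (𝓞 K) (𝓞 L) m} : Ideal (𝓞 K)) ≠ 0 := by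
    rw [Ne, Ideal.zero_eq_bot, Ideal.span_singleton_eq_bot]
    exact hm1
  apply mul_left_cancel₀ hm2
  calc Ideal.span {Algebra.intNorm (𝓞 K) (𝓞 L) m} *
        (lead f * Ideal.relNorm (𝓞 K) (nI j (algebraMap (𝓞 K) (𝓞 L) t)))
      = lead f * (Ideal.span {Algebra.intNorm (𝓞 K) (𝓞 L) m} *
          Ideal.relNorm (𝓞 K) (nI j (algebraMap (𝓞 K) (𝓞 L) t))) := by ring
    _ = lead f * (Ideal.span {Algebra.intNorm (𝓞 K) (𝓞 L) y} *
          Ideal.relNorm (𝓞 K) (den j)) := by rw [e2]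
    _ = (lead f * Ideal.span {Algebra.intNorm (𝓞 K) (𝓞 L) y}) *
          Ideal.relNorm (𝓞 K) (den j) := by ring
    _ = (Ideal.span {Algebra.intNorm (𝓞 K) (𝓞 L) m} * Ideal.span {g}) *
          Ideal.relNorm (𝓞 K) (den j) := by
        unfold lead
        rw [Ideal.span_singleton_mul_span_singleton, Ideal.span_singleton_mul_span_singleton, e3]
    _ = _ := by ring

end Big39

open Big39 in
theorem t_BIG (h : S_NRM) : S_BIG := by
  intro K _ _ L _ _ _ d f j hf v hN e he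
  have hv : v.asIdeal.IsMaximal := v.isMaximal
  have hp : Prime v.asIdeal := Ideal.prime_of_isPrime v.ne_bot v.isPrime
  obtain ⟨t, ht⟩ := exists_t hf.2.2.2 j hv v.ne_bot hN
  obtain ⟨g, hg⟩ := ident h hf t
  refine hp.pow_dvd_of_dvd_mul_right e ht ?_
  rw [hg]
  exact he.mul_left _

end Pool.Agent.NH52.LS
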