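import Pool.Agent.NH52.LS.Stm

/-!
# LS-13: the number of bad polynomials
-/

set_option autoImplicit false
set_option linter.unusedSectionVars false

namespace Pool.Agent.NH52.LS

open NumberField IsDedekindDomain

namespace Cnt

open Finset

variable {K : Type} [Field K] [NumberField K]

/-- the norm of an element of the box -/
theorem norm_le {Y : ℝ} (a : 𝓞 K) (ha : a ∈ Box1 K Y) :
    |(Algebra.norm ℚ (a : K) : ℝ)| ≤ Y ^ Module.finrank ℚ K := by
  have h1 := Algebra.norm_eq_prod_embeddings ℚ ℂ (a : K)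
  have h2 : ‖(algebraMap ℚ ℂ) (Algebra.norm ℚ (a : K))‖ = |(Algebra.norm ℚ (a : K) : ℝ)| := by
    rw [eq_ratCast, Complex.norm_ratCast]
  rw [← h2, h1, norm_prod]
  have h3 : ∏ σ : K →ₐ[ℚ] ℂ, ‖σ (a : K)‖ ≤ ∏ σ : K →ₐ[ℚ] ℂ, Y :=
    Finset.prod_le_prod (fun σ _ => norm_nonneg _) (fun σ _ => ha σ.toRingHom)
  refine h3.trans ?_
  rw [Finset.prod_const, Finset.card_univ, AlgHom.card]

theorem absNorm_eq (a : 𝓞 K) : (Ideal.absNorm (Ideal.span {a}) : ℝ) = |(Algebra.norm ℚ (a : K) : ℝ)| := by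
  rw [Ideal.absNorm_span_singleton, ← Algebra.coe_norm_int, Nat.cast_natAbs]
  push_cast
  rfl

open Classical in
/-- the number of the functions the last value of which is in a set -/
theorem card_last {d : ℕ} (B A : Finset (𝓞 K)) (hA : A ⊆ B) :
    ((Fintype.piFinset (fun _ : Fin (d + 1) => B)).filter
      (fun f : Fin (d + 1) → 𝓞 K => f (Fin.last d) ∈ A)).card ≤ A.card * B.card ^ d := by
  have h1 : ((Fintype.piFinset (fun _ : Fin (d + 1) => B)).filter
      (fun f : Fin (d + 1) → 𝓞 K => f (Fin.last d) ∈ A)) ⊆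
      Fintype.piFinset (fun i : Fin (d + 1) => if i = Fin.last d then A else B) := by
    intro f hf
    rw [Finset.mem_filter, Fintype.mem_piFinset] at hf
    rw [Fintype.mem_piFinset]
    intro i
    split_ifs with h
    · rw [h]; exact hf.2
    · exact hf.1 i
  refine (Finset.card_le_card h1).trans ?_
  rw [Fintype.card_piFinset, Fin.prod_univ_castSucc, if_pos rfl]
  rw [Finset.prod_congr rfl (fun i _ => by rw [if_neg (Fin.castSucc_lt_last i).ne] :
    ∀ i ∈ (Finset.univ : Finset (Fin d)), (if Fin.castSucc i = Fin.last d then A else B).card = B.card)]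
  rw [Finset.prod_const, Finset.card_univ, Fintype.card_fin, mul_comm]

open Classical in
/-- the number of the functions all values of which are in a set -/
theorem card_all {d : ℕ} (B A : Finset (𝓞 K)) :
    ((Fintype.piFinset (fun _ : Fin (d + 1) => B)).filter
      (fun f : Fin (d + 1) → 𝓞 K => ∀ i, f i ∈ A)).card ≤ A.card ^ (d + 1) := by
  have h1 : ((Fintype.piFinset (fun _ : Fin (d + 1) => B)).filter
      (fun f : Fin (d + 1) → 𝓞 K => ∀ i, f i ∈ A)) ⊆
      Fintype.piFinset (fun i : Fin (d + 1) => A) := by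
    intro f hf
    rw [Finset.mem_filter, Fintype.mem_piFinset] at hf
    rw [Fintype.mem_piFinset]
    exact hf.2
  refine (Finset.card_le_card h1).trans ?_
  rw [Fintype.card_piFinset_const]

end Cnt

open Cnt

open Classical in
theorem t_CNT (h1 : S_IDB) (h2 : S_SMN) (h3 : S_LOW) (h4 : S_IDS) : S_CNT := by
  intro K _ _ d hd
  obtain ⟨C1, hC1, h1⟩ := h1 K
  obtain ⟨C2, hC2, h2⟩ := h2 K
  obtain ⟨C3, hC3, h3⟩ := h3 K
  obtain ⟨C4, hC4, h4⟩ := h4 K
  have hn : 0 < Module.finrank ℚ K := Module.finrank_pos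
  set n := Module.finrank ℚ K with hndef
  refine ⟨C3 ^ (d + 1) + C1 ^ (d + 1) + (C2 * C1 ^ d + 2 * (C1 ^ (d + 1) * C4)), by positivity, ?_⟩
  intro Y θ W hY hθ hθ1 hYθ hW
  have hYn : 1 ≤ Y ^ n := one_le_pow₀ hY
  have hYn0 : 0 < Y ^ n := by linarith
  -- the box
  have htop := h1 ⊤ Y (by simp) hY (by rw [Ideal.absNorm_top]; simpa using hYn)
  have etop : {a ∈ Box1 K Y | a ∈ (⊤ : Ideal (𝓞 K))} = Box1 K Y := by
    ext a
    simp
  rw [etop, Ideal.absNorm_top, Nat.cast_one, div_one] at htop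
  obtain ⟨hfin, hcard⟩ := htop
  set B : Finset (𝓞 K) := hfin.toFinset with hB
  have hBc : (B : Set (𝓞 K)) = Box1 K Y := by rw [hB, Set.Finite.coe_toFinset]
  have hBmem : ∀ a, a ∈ B ↔ a ∈ Box1 K Y := fun a => by rw [hB, Set.Finite.mem_toFinset]
  have hBcard : ((Box1 K Y).ncard : ℝ) = (B.card : ℝ) := by
    rw [← hBc, Set.ncard_coe_finset]
  rw [hBcard] at hcard
  set PB : Finset (Fin (d + 1) → 𝓞 K) := Fintype.piFinset (fun _ : Fin (d + 1) => B) with hPB
  have hBox : Box K d Y = (PB : Set (Fin (d + 1) → 𝓞 K)) := by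
    ext f
    rw [Finset.mem_coe, hPB, Fintype.mem_piFinset]
    simp only [hBmem]
    rfl
  have hBoxc : ((Box K d Y).ncard : ℝ) = (B.card : ℝ) ^ (d + 1) := by
    rw [hBox, Set.ncard_coe_finset, hPB, Fintype.card_piFinset_const]
    push_cast
    rfl
  have hB0 : (0 : ℝ) ≤ B.card := Nat.cast_nonneg _
  have hpowY : Y ^ (n * (d + 1)) = (Y ^ n) ^ (d + 1) := pow_mul _ _ _
  have hpos1 : 0 ≤ C2 * C1 ^ d + 2 * (C1 ^ (d + 1) * C4) := by positivity
  have hYp : 0 < (Y ^ n) ^ (d + 1) := by positivity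
  refine ⟨by rw [hBox]; exact Finset.finite_toSet _, ?_, ?_, ?_⟩
  · have h5 := h3 Y hY
    rw [hBcard] at h5
    rw [hpowY, hBoxc]
    have h6 : (Y ^ n) ^ (d + 1) ≤ (C3 * B.card) ^ (d + 1) := pow_le_pow_left₀ hYn0.le h5 _
    rw [mul_pow] at h6
    refine h6.trans ?_
    refine mul_le_mul_of_nonneg_right ?_ (by positivity)
    have : 0 ≤ C1 ^ (d + 1) := by positivity
    linarith
  · rw [hpowY, hBoxc]
    have h6 : (B.card : ℝ) ^ (d + 1) ≤ (C1 * Y ^ n) ^ (d + 1) := pow_le_pow_left₀ hB0 hcard _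
    rw [mul_pow] at h6
    refine h6.trans ?_
    refine mul_le_mul_of_nonneg_right ?_ (by positivity)
    have : 0 ≤ C3 ^ (d + 1) := by positivity
    linarith
  · -- the bad ones
    have hBpow : (B.card : ℝ) ^ d ≤ C1 ^ d * (Y ^ n) ^ d := by
      rw [← mul_pow]
      exact pow_le_pow_left₀ hB0 hcard _
    -- the ideals
    have hTfin : {J : Ideal (𝓞 K) | J ≠ ⊥ ∧ W < (Ideal.absNorm J : ℝ) ∧ (Ideal.absNorm J : ℝ) ≤ Y ^ n}.Finite := by
      refine (Ideal.finite_setOf_absNorm_le (S := 𝓞 K) ⌊Y ^ n⌋₊).subset ?_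
      intro J hJ
      exact Nat.le_floor hJ.2.2
    set T : Finset (Ideal (𝓞 K)) := hTfin.toFinset with hT
    have hTmem : ∀ J, J ∈ T ↔ (J ≠ ⊥ ∧ W < (Ideal.absNorm J : ℝ) ∧ (Ideal.absNorm J : ℝ) ≤ Y ^ n) := by
      intro J
      rw [hT, Set.Finite.mem_toFinset]
      rfl
    set T2 : Finset (Ideal (𝓞 K)) := T.filter (fun J => (Ideal.absNorm J : ℝ) ^ 2 ≤ Y ^ n) with hT2
    set A1 : Finset (𝓞 K) := B.filter (fun a => |(Algebra.norm ℚ (a : K) : ℝ)| ≤ (Y * θ) ^ n) with hA1
    set AJ : Ideal (𝓞 K) → Finset (𝓞 K) := fun J => B.filter (fun a => a ∈ J) with hAJ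
    set S1 := PB.filter (fun f => f (Fin.last d) ∈ A1) with hS1
    set S2 := T2.biUnion (fun J => PB.filter (fun f => f (Fin.last d) ∈ AJ (J ^ 2))) with hS2
    set S3 := T.biUnion (fun J => PB.filter (fun f => ∀ i, f i ∈ AJ J)) with hS3
    have hsub : {f ∈ Box K d Y | ¬ GoodF Y θ W f} ⊆ ((S1 ∪ (S2 ∪ S3) : Finset (Fin (d + 1) → 𝓞 K)) : Set (Fin (d + 1) → 𝓞 K)) := by
      rintro f ⟨hf, hbad⟩
      have hfP : f ∈ PB := by
        rw [hBox] at hf
        exact hf
      have hfB : ∀ i, f i ∈ B := by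
        rw [hPB, Fintype.mem_piFinset] at hfP
        exact hfP
      rw [Finset.mem_coe, Finset.mem_union, Finset.mem_union]
      by_cases hc1 : (Y * θ) ^ n < (Ideal.absNorm (lead f) : ℝ)
      · right
        have hlead0 : lead f ≠ ⊥ := by
          intro h
          rw [h, Ideal.absNorm_bot, Nat.cast_zero] at hc1
          have : 0 ≤ (Y * θ) ^ n := by positivity
          linarith
        have hlpos : 0 < Ideal.absNorm (lead f) := by
          have : (0 : ℝ) < (Ideal.absNorm (lead f) : ℝ) := lt_of_le_of_lt (by positivity) hc1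
          exact_mod_cast this
        have hleadle : (Ideal.absNorm (lead f) : ℝ) ≤ Y ^ n := by
          rw [lead, absNorm_eq]
          exact norm_le _ ((hBmem _).mp (hfB _))
        by_cases hc2 : NoSq W (lead f)
        · by_cases hc3 : SmC W f
          · exact absurd ⟨hc1, hc2, hc3⟩ hbad
          · right
            rw [SmC] at hc3
            push Not at hc3
            obtain ⟨J, hJ, hWJ⟩ := hc3
            have hJ0 : J ≠ ⊥ := by
              intro h
              rw [h, Ideal.absNorm_bot, Nat.cast_zero] at hWJ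
              linarith
            have hdvd : J ∣ lead f := by
              rw [lead, Ideal.dvd_span_singleton]
              exact hJ _
            have hle : Ideal.absNorm J ≤ Ideal.absNorm (lead f) :=
              Nat.le_of_dvd hlpos (Ideal.absNorm_dvd_absNorm_of_le (Ideal.le_of_dvd hdvd))
            rw [hS3, Finset.mem_biUnion]
            refine ⟨J, (hTmem J).mpr ⟨hJ0, hWJ, le_trans (by exact_mod_cast hle) hleadle⟩, ?_⟩
            rw [Finset.mem_filter]
            refine ⟨hfP, fun i => ?_⟩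
            rw [hAJ, Finset.mem_filter]
            exact ⟨hfB i, hJ i⟩
        · left
          rw [NoSq] at hc2
          push Not at hc2
          obtain ⟨J, hJ, hWJ⟩ := hc2
          have hJ0 : J ≠ ⊥ := by
            intro h
            rw [h, Ideal.absNorm_bot, Nat.cast_zero] at hWJ
            linarith
          have hle : Ideal.absNorm (J ^ 2) ≤ Ideal.absNorm (lead f) :=
            Nat.le_of_dvd hlpos (Ideal.absNorm_dvd_absNorm_of_le (Ideal.le_of_dvd hJ))
          have hle2 : (Ideal.absNorm J : ℝ) ^ 2 ≤ Y ^ n := by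
            refine le_trans ?_ hleadle
            rw [map_pow] at hle
            exact_mod_cast hle
          have hJ1 : (1 : ℝ) ≤ Ideal.absNorm J := by linarith
          have hle3 : (Ideal.absNorm J : ℝ) ≤ Y ^ n := by nlinarith
          rw [hS2, Finset.mem_biUnion]
          refine ⟨J, ?_, ?_⟩
          · rw [hT2, Finset.mem_filter, hTmem]
            exact ⟨⟨hJ0, hWJ, hle3⟩, hle2⟩
          · rw [Finset.mem_filter]
            refine ⟨hfP, ?_⟩
            rw [hAJ, Finset.mem_filter]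
            refine ⟨hfB _, ?_⟩
            rw [lead, Ideal.dvd_span_singleton] at hJ
            exact hJ
      · left
        rw [hS1, Finset.mem_filter]
        refine ⟨hfP, ?_⟩
        rw [hA1, Finset.mem_filter]
        refine ⟨hfB _, ?_⟩
        rw [not_lt, lead, absNorm_eq] at hc1
        exact hc1
    -- the cardinalities
    have hc1 : ((S1.card : ℕ) : ℝ) ≤ (C2 * Y ^ n * θ) * (C1 ^ d * (Y ^ n) ^ d) := by
      have h5 := card_last (d := d) B A1 (Finset.filter_subset _ _)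
      have h6 : (A1.card : ℝ) ≤ C2 * Y ^ n * θ := by
        have h7 := h2 Y θ hY hθ hθ1 hYθ
        have h8 : {a ∈ Box1 K Y | |(Algebra.norm ℚ (a : K) : ℝ)| ≤ (Y * θ) ^ n} = (A1 : Set (𝓞 K)) := by
          ext a
          rw [hA1, Finset.coe_filter]
          simp only [Set.mem_setOf_eq, hBmem]
        rw [h8, Set.ncard_coe_finset] at h7
        exact h7
      calc ((S1.card : ℕ) : ℝ) ≤ ((A1.card * B.card ^ d : ℕ) : ℝ) := by exact_mod_cast h5
        _ = (A1.card : ℝ) * (B.card : ℝ) ^ d := by push_cast; rfl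
        _ ≤ _ := mul_le_mul h6 hBpow (by positivity) (by positivity)
    have hAJc : ∀ J : Ideal (𝓞 K), J ≠ ⊥ → (Ideal.absNorm J : ℝ) ≤ Y ^ n →
        ((AJ J).card : ℝ) ≤ C1 * Y ^ n / Ideal.absNorm J := by
      intro J hJ hJn
      have h7 := (h1 J Y hJ hY hJn).2
      have h8 : {a ∈ Box1 K Y | a ∈ J} = (AJ J : Set (𝓞 K)) := by
        ext a
        rw [hAJ, Finset.coe_filter]
        simp only [Set.mem_setOf_eq, hBmem]
      rw [h8, Set.ncard_coe_finset] at h7
      exact h7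
    have hc2 : ((S2.card : ℕ) : ℝ) ≤ C1 ^ (d + 1) * (Y ^ n) ^ (d + 1) * (C4 * W ^ (-(1 / 2) : ℝ)) := by
      have h5 : ((S2.card : ℕ) : ℝ) ≤ ∑ J ∈ T2, ((PB.filter (fun f => f (Fin.last d) ∈ AJ (J ^ 2))).card : ℝ) := by
        exact_mod_cast Finset.card_biUnion_le
      refine h5.trans ?_
      have h6 : ∀ J ∈ T2, ((PB.filter (fun f => f (Fin.last d) ∈ AJ (J ^ 2))).card : ℝ) ≤
          C1 ^ (d + 1) * (Y ^ n) ^ (d + 1) * (1 / (Ideal.absNorm J : ℝ) ^ 2) := by
        intro J hJ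
        rw [hT2, Finset.mem_filter, hTmem] at hJ
        have h7 := card_last (d := d) B (AJ (J ^ 2)) (Finset.filter_subset _ _)
        have h8 := hAJc (J ^ 2) (pow_ne_zero 2 hJ.1.1) (by rw [map_pow]; push_cast; exact hJ.2)
        rw [map_pow] at h8
        push_cast at h8
        calc ((PB.filter (fun f => f (Fin.last d) ∈ AJ (J ^ 2))).card : ℝ)
            ≤ (((AJ (J ^ 2)).card * B.card ^ d : ℕ) : ℝ) := by exact_mod_cast h7
          _ = ((AJ (J ^ 2)).card : ℝ) * (B.card : ℝ) ^ d := by push_cast; rfl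
          _ ≤ (C1 * Y ^ n / (Ideal.absNorm J : ℝ) ^ 2) * (C1 ^ d * (Y ^ n) ^ d) :=
            mul_le_mul h8 hBpow (by positivity) (by positivity)
          _ = _ := by rw [pow_succ, pow_succ]; ring
      refine (Finset.sum_le_sum h6).trans ?_
      rw [← Finset.mul_sum]
      refine mul_le_mul_of_nonneg_left ?_ (by positivity)
      exact h4 W T2 hW (fun I hI => by
        rw [hT2, Finset.mem_filter, hTmem] at hI
        exact ⟨hI.1.1, hI.1.2.1⟩)
    have hc3 : ((S3.card : ℕ) : ℝ) ≤ C1 ^ (d + 1) * (Y ^ n) ^ (d + 1) * (C4 * W ^ (-(1 / 2) : ℝ)) := by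
      have h5 : ((S3.card : ℕ) : ℝ) ≤ ∑ J ∈ T, ((PB.filter (fun f => ∀ i, f i ∈ AJ J)).card : ℝ) := by
        exact_mod_cast Finset.card_biUnion_le
      refine h5.trans ?_
      have h6 : ∀ J ∈ T, ((PB.filter (fun f => ∀ i, f i ∈ AJ J)).card : ℝ) ≤
          C1 ^ (d + 1) * (Y ^ n) ^ (d + 1) * (1 / (Ideal.absNorm J : ℝ) ^ 2) := by
        intro J hJ
        rw [hTmem] at hJ
        have h7 := card_all (d := d) B (AJ J)
        have h8 := hAJc J hJ.1 hJ.2.2
        have hJ1 : (1 : ℝ) ≤ Ideal.absNorm J := by linarith [hJ.2.1]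
        have h9 : (Ideal.absNorm J : ℝ) ^ 2 ≤ (Ideal.absNorm J : ℝ) ^ (d + 1) :=
          pow_le_pow_right₀ hJ1 (by omega)
        calc ((PB.filter (fun f => ∀ i, f i ∈ AJ J)).card : ℝ)
            ≤ (((AJ J).card ^ (d + 1) : ℕ) : ℝ) := by exact_mod_cast h7
          _ = ((AJ J).card : ℝ) ^ (d + 1) := by push_cast; rfl
          _ ≤ (C1 * Y ^ n / (Ideal.absNorm J : ℝ)) ^ (d + 1) := pow_le_pow_left₀ (Nat.cast_nonneg _) h8 _
          _ = C1 ^ (d + 1) * (Y ^ n) ^ (d + 1) * (1 / (Ideal.absNorm J : ℝ) ^ (d + 1)) := by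
            rw [div_pow, mul_pow]; ring
          _ ≤ _ := by
            refine mul_le_mul_of_nonneg_left ?_ (by positivity)
            exact one_div_le_one_div_of_le (by positivity) h9
      refine (Finset.sum_le_sum h6).trans ?_
      rw [← Finset.mul_sum]
      refine mul_le_mul_of_nonneg_left ?_ (by positivity)
      exact h4 W T hW (fun I hI => by
        rw [hTmem] at hI
        exact ⟨hI.1, hI.2.1⟩)
    have hW0 : 0 < W ^ (-(1 / 2) : ℝ) := Real.rpow_pos_of_pos (by linarith) _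
    calc ({f ∈ Box K d Y | ¬ GoodF Y θ W f}.ncard : ℝ)
        ≤ (((S1 ∪ (S2 ∪ S3)).card : ℕ) : ℝ) := by
          have h5 := Set.ncard_le_ncard hsub (Finset.finite_toSet _)
          rw [Set.ncard_coe_finset] at h5
          exact_mod_cast h5
      _ ≤ (S1.card : ℝ) + ((S2.card : ℝ) + (S3.card : ℝ)) := by
          have h5 := (Finset.card_union_le S1 (S2 ∪ S3)).trans
            (Nat.add_le_add_left (Finset.card_union_le S2 S3) _)
          exact_mod_cast h5
      _ ≤ (C2 * Y ^ n * θ) * (C1 ^ d * (Y ^ n) ^ d) +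
          (C1 ^ (d + 1) * (Y ^ n) ^ (d + 1) * (C4 * W ^ (-(1 / 2) : ℝ)) +
           C1 ^ (d + 1) * (Y ^ n) ^ (d + 1) * (C4 * W ^ (-(1 / 2) : ℝ))) :=
          add_le_add hc1 (add_le_add hc2 hc3)
      _ = (Y ^ n) ^ (d + 1) * ((C2 * C1 ^ d) * θ + (2 * (C1 ^ (d + 1) * C4)) * W ^ (-(1 / 2) : ℝ)) := by
          rw [pow_succ (Y ^ n) d]; ring
      _ ≤ (Y ^ n) ^ (d + 1) * ((C3 ^ (d + 1) + C1 ^ (d + 1) + (C2 * C1 ^ d + 2 * (C1 ^ (d + 1) * C4))) *
            (θ + W ^ (-(1 / 2) : ℝ))) := by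
          refine mul_le_mul_of_nonneg_left ?_ hYp.le
          have e1 : 0 ≤ C3 ^ (d + 1) := by positivity
          have e2 : 0 ≤ C1 ^ (d + 1) := by positivity
          have e3 : 0 ≤ C2 * C1 ^ d := by positivity
          have e4 : 0 ≤ 2 * (C1 ^ (d + 1) * C4) := by positivity
          have e5 : (C2 * C1 ^ d) * θ ≤ (C3 ^ (d + 1) + C1 ^ (d + 1) + (C2 * C1 ^ d + 2 * (C1 ^ (d + 1) * C4))) * θ :=
            mul_le_mul_of_nonneg_right (by linarith) hθ.le
          have e6 : (2 * (C1 ^ (d + 1) * C4)) * W ^ (-(1 / 2) : ℝ) ≤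
              (C3 ^ (d + 1) + C1 ^ (d + 1) + (C2 * C1 ^ d + 2 * (C1 ^ (d + 1) * C4))) * W ^ (-(1 / 2) : ℝ) :=
            mul_le_mul_of_nonneg_right (by linarith) hW0.le
          rw [mul_add]
          linarith
      _ = _ := by rw [hpowY]; ring

end Pool.Agent.NH52.LS
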