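import Pool.Agent.NH52.LS.Det

/-!
# Roots of random polynomials: the number of the exceptional polynomials
-/

set_option autoImplicit false
set_option linter.unusedSectionVars false

namespace Pool.Agent.NH52.LS

open NumberField IsDedekindDomain

/-- the counting theorem -/
theorem count (h1 : S_HTF) (h2 : S_ARC) (h3 : S_FIN) (h4 : S_SPB) (h5 : S_GLU) (h6 : S_LSP) (h7 : S_CNT) :
    ∃ c : ℝ, 0 < c ∧ ∀ (K : Type) [Field K] [NumberField K] (d : ℕ), 1 ≤ d →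
      ∃ ν C : ℝ, 0 < ν ∧ 0 < C ∧ ∀ Y : ℝ, 1 ≤ Y → (Box K d Y).Finite ∧
        Y ^ (Module.finrank ℚ K * (d + 1)) ≤ C * (Box K d Y).ncard ∧
        ((ExcF c K d ∩ Box K d Y).ncard : ℝ) ≤ C * Y ^ (-ν) * (Box K d Y).ncard := by
  obtain ⟨c, hc, h⟩ := det h1 h2 h3 h4 h5 h6
  refine ⟨c, hc, fun K _ _ d hd => ?_⟩
  obtain ⟨δ, Y₀, hδ0, hδ1, hY₀, h⟩ := h K d
  obtain ⟨C, hC, hcnt⟩ := h7 K d hd
  have hY₀' : 0 < Y₀ ^ (δ / 2) := Real.rpow_pos_of_pos (by linarith) _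
  refine ⟨δ / 2, max C (max (2 * C * C) (Y₀ ^ (δ / 2))), by positivity, lt_max_of_lt_left hC, fun Y hY => ?_⟩
  have hY0 : 0 < Y := by linarith
  have hθ0 : 0 < Y ^ (-δ) := Real.rpow_pos_of_pos hY0 _
  have hW : 1 ≤ Y ^ δ := Real.one_le_rpow hY hδ0.le
  have hθ1 : Y ^ (-δ) ≤ 1 := by
    rw [Real.rpow_neg hY0.le]
    exact inv_le_one_of_one_le₀ hW
  have hYθ : 1 ≤ Y * Y ^ (-δ) := by
    have : Y * Y ^ (-δ) = Y ^ (1 - δ) := by
      rw [sub_eq_add_neg, Real.rpow_add hY0, Real.rpow_one]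
    rw [this]
    exact Real.one_le_rpow hY (by linarith)
  obtain ⟨a1, a2, -, a4⟩ := hcnt Y (Y ^ (-δ)) (Y ^ δ) hY hθ0 hθ1 hYθ hW
  have hB : (0 : ℝ) ≤ ((Box K d Y).ncard : ℝ) := Nat.cast_nonneg _
  have hν : 0 < Y ^ (-(δ / 2)) := Real.rpow_pos_of_pos hY0 _
  refine ⟨a1, a2.trans (mul_le_mul_of_nonneg_right (le_max_left _ _) hB), ?_⟩
  rcases le_or_gt Y₀ Y with hYY | hYY
  · have b1 : ((ExcF c K d ∩ Box K d Y).ncard : ℝ) ≤
        ({f ∈ Box K d Y | ¬ GoodF Y (Y ^ (-δ)) (Y ^ δ) f}.ncard : ℝ) := by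
      have hsub : ExcF c K d ∩ Box K d Y ⊆ {f ∈ Box K d Y | ¬ GoodF Y (Y ^ (-δ)) (Y ^ δ) f} :=
        fun f hf => ⟨hf.2, fun hg => h Y hYY f hf.2 hg hf.1⟩
      have hfin : {f ∈ Box K d Y | ¬ GoodF Y (Y ^ (-δ)) (Y ^ δ) f}.Finite := a1.subset fun f hf => hf.1
      exact_mod_cast Set.ncard_le_ncard hsub hfin
    have b2 : (Y ^ δ) ^ (-(1 / 2) : ℝ) = Y ^ (-(δ / 2)) := by
      rw [← Real.rpow_mul hY0.le]
      congr 1
      ring
    have b3 : Y ^ (-δ) ≤ Y ^ (-(δ / 2)) := Real.rpow_le_rpow_of_exponent_le hY (by linarith)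
    rw [b2] at a4
    calc ((ExcF c K d ∩ Box K d Y).ncard : ℝ)
        ≤ C * Y ^ (Module.finrank ℚ K * (d + 1)) * (Y ^ (-δ) + Y ^ (-(δ / 2))) := b1.trans a4
      _ ≤ C * Y ^ (Module.finrank ℚ K * (d + 1)) * (2 * Y ^ (-(δ / 2))) :=
          mul_le_mul_of_nonneg_left (by linarith) (by positivity)
      _ = (2 * C) * Y ^ (-(δ / 2)) * Y ^ (Module.finrank ℚ K * (d + 1)) := by ring
      _ ≤ (2 * C) * Y ^ (-(δ / 2)) * (C * (Box K d Y).ncard) :=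
          mul_le_mul_of_nonneg_left a2 (by positivity)
      _ = (2 * C * C) * Y ^ (-(δ / 2)) * (Box K d Y).ncard := by ring
      _ ≤ _ := by
          apply mul_le_mul_of_nonneg_right _ hB
          apply mul_le_mul_of_nonneg_right _ hν.le
          exact (le_max_left _ _).trans (le_max_right _ _)
  · have b1 : ((ExcF c K d ∩ Box K d Y).ncard : ℝ) ≤ ((Box K d Y).ncard : ℝ) := by
      have hsub : ExcF c K d ∩ Box K d Y ⊆ Box K d Y := fun f hf => hf.2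
      exact_mod_cast Set.ncard_le_ncard hsub a1
    have b2 : 1 ≤ Y₀ ^ (δ / 2) * Y ^ (-(δ / 2)) := by
      have b3 : Y ^ (δ / 2) ≤ Y₀ ^ (δ / 2) := Real.rpow_le_rpow hY0.le hYY.le (by positivity)
      have b4 : Y ^ (δ / 2) * Y ^ (-(δ / 2)) = 1 := by
        rw [← Real.rpow_add hY0]
        simp
      calc (1 : ℝ) = Y ^ (δ / 2) * Y ^ (-(δ / 2)) := b4.symm
        _ ≤ _ := mul_le_mul_of_nonneg_right b3 hν.le
    calc ((ExcF c K d ∩ Box K d Y).ncard : ℝ) ≤ 1 * (Box K d Y).ncard := by rw [one_mul]; exact b1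
      _ ≤ (Y₀ ^ (δ / 2) * Y ^ (-(δ / 2))) * (Box K d Y).ncard := mul_le_mul_of_nonneg_right b2 hB
      _ ≤ _ := by
          apply mul_le_mul_of_nonneg_right _ hB
          apply mul_le_mul_of_nonneg_right _ hν.le
          exact (le_max_right _ _).trans (le_max_right _ _)

end Pool.Agent.NH52.LS
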