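import Pool.Agent.NH52.LS.Stm2

/-!
# Roots of random polynomials: most of them have the lower bound
-/

set_option autoImplicit false
set_option linter.unusedSectionVars false

namespace Pool.Agent.NH52.LS

open NumberField IsDedekindDomain Pool.Agent.H691R3 Pool.Agent.W223.AK Pool.Agent.Y733.LS Pool.Agent.Y733.UD
  Pool.Agent.TH942 Pool.Agent.TH910.LS

namespace DetAux

open Classical in
theorem sp_le_ht {K : Type} [Field K] [NumberField K] (j : K) : sp j ≤ ht j := by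
  rw [ht_eq_Sa]
  have e : sp j = Sm (K := K) (fun _ => 0) (fun v => if Sp j v then Real.log (Nv v) else 0) := by
    unfold Sm sp
    simp
  rw [e]
  unfold Sa
  refine Sm_mono (Fs_sp j) (Fs_ht j) (fun w => Real.log_nonneg (le_max_right _ _)) fun v => ?_
  split_ifs with h
  · show Real.log (Nv v) ≤ Real.log (max (fv v j) 1)
    rw [h.2.2]
    exact Real.log_le_log (Nv_pos v) (le_max_left _ _)
  · exact Real.log_nonneg (le_max_right _ _)

end DetAux

/-- the polynomials with a root for which the lower bound with the constant `c` fails -/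
def ExcF (c : ℝ) (K : Type) [Field K] [NumberField K] (d : ℕ) : Set (Fin (d + 1) → 𝓞 K) :=
  {f | ∃ (L : Type) (_ : Field L) (_ : NumberField L) (_ : Algebra K L) (j : L), IsRoot f j ∧ ¬ LSP c j}

open DetAux in
/-- the deterministic part -/
theorem det (h1 : S_HTF) (h2 : S_ARC) (h3 : S_FIN) (h4 : S_SPB) (h5 : S_GLU) (h6 : S_LSP) :
    ∃ c : ℝ, 0 < c ∧ ∀ (K : Type) [Field K] [NumberField K] (d : ℕ), ∃ δ Y₀ : ℝ, 0 < δ ∧ δ ≤ 1 ∧ 1 ≤ Y₀ ∧
      ∀ Y : ℝ, Y₀ ≤ Y → ∀ f ∈ Box K d Y, GoodF Y (Y ^ (-δ)) (Y ^ δ) f → f ∉ ExcF c K d := by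
  obtain ⟨c, L₀, hc, hL₀, h6⟩ := h6
  refine ⟨c, hc, fun K _ _ d => ?_⟩
  obtain ⟨C1, hC1, h3⟩ := h3 K d
  obtain ⟨C2, hC2, h4⟩ := h4 K d
  set n : ℝ := (Module.finrank ℚ K : ℝ) with hn
  have hn1 : 1 ≤ n := by
    rw [hn]
    exact_mod_cast (Module.finrank_pos : 0 < Module.finrank ℚ K)
  set δ : ℝ := 1 / (8 * (n + C1 + C2)) with hδ
  have hS : 0 < n + C1 + C2 := by linarith
  have hδ0 : 0 < δ := by positivity
  have hδS : δ * (n + C1 + C2) = 1 / 8 := by
    rw [hδ]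
    field_simp
  have hδ1 : δ ≤ 1 := by
    have : δ * 1 ≤ δ * (n + C1 + C2) := mul_le_mul_of_nonneg_left (by linarith) hδ0.le
    linarith
  have hd0 : (0 : ℝ) ≤ Real.log (d + 1) := Real.log_nonneg (by
    have : (0 : ℝ) ≤ d := Nat.cast_nonneg d
    linarith)
  set R : ℝ := 8 * (n * Real.log (d + 1) + C1 + C2 + n * d * L₀) with hR
  have hR0 : 0 ≤ R := by positivity
  refine ⟨δ, Real.exp R, hδ0, hδ1, Real.one_le_exp hR0, fun Y hY f hf hg => ?_⟩
  rintro ⟨L, i1, i2, i3, j, hj, hbad⟩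
  apply hbad
  have hY1 : 1 ≤ Y := (Real.one_le_exp hR0).trans hY
  have hY0 : 0 < Y := by linarith
  set l : ℝ := Real.log Y with hl
  have hl0 : 0 ≤ l := Real.log_nonneg hY1
  have hlR : R ≤ l := by
    rw [hl, ← Real.log_exp R]
    exact Real.log_le_log (Real.exp_pos _) hY
  have hlW : Real.log (Y ^ δ) = δ * l := Real.log_rpow hY0 _
  have hW1 : 1 ≤ Y ^ δ := Real.one_le_rpow hY1 hδ0.le
  obtain ⟨g1, g2, g3⟩ := hg
  have e1 : Height.logHeight₁ j = ht j := by rw [logHeight_eq, ht_eq_Sa]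
  obtain ⟨hden, a1⟩ := h1 L j
  rw [e1] at a1
  have a2 := h2 K L d f j Y hj hf
  have a3 := h3 L f j (Y ^ δ) hj hW1 g2
  obtain ⟨S, hS1, a4⟩ := h4 L f j (Y ^ δ) hj hW1 g2 g3
  have a5 := h5 L j S hden hS1
  rw [hlW] at a3 a4
  have hd1 : (0 : ℝ) < (d : ℝ) + 1 := by positivity
  rw [Real.log_mul hd1.ne' hY0.ne'] at a2
  -- the norm of the leading coefficient
  have b1 : n * (l - δ * l) ≤ Real.log (Ideal.absNorm (lead f)) := by
    have h7 : Real.log ((Y * Y ^ (-δ)) ^ Module.finrank ℚ K) = n * (l - δ * l) := by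
      rw [Real.log_pow, Real.log_mul hY0.ne' (Real.rpow_pos_of_pos hY0 _).ne', Real.log_rpow hY0]
      ring
    rw [← h7]
    exact Real.log_le_log (pow_pos (mul_pos hY0 (Real.rpow_pos_of_pos hY0 _)) _) g1.le
  have hht : ht j ≤ n * l + n * Real.log (d + 1) + C1 * (1 + δ * l) := by
    rw [a1]
    have h8 : n * (Real.log ((d : ℝ) + 1) + Real.log Y) = n * Real.log (d + 1) + n * l := by
      rw [mul_add]
    linarith
  have hsp : n * (l - δ * l) - C2 * (1 + δ * l) ≤ sp j := by linarith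
  have k1 : δ * n * l + δ * C1 * l + δ * C2 * l = l / 8 := by
    have : δ * n * l + δ * C1 * l + δ * C2 * l = δ * (n + C1 + C2) * l := by ring
    rw [this, hδS]
    ring
  have k2 : 0 ≤ δ * C1 * l := by positivity
  have k3 : 0 ≤ δ * C2 * l := by positivity
  have k4 : 0 ≤ δ * n * l := by positivity
  have k5 : l ≤ n * l := le_mul_of_one_le_left hl0 hn1
  have k6 : 0 ≤ n * Real.log (d + 1) := by positivity
  have k7 : 0 ≤ n * d * L₀ := by positivity
  have hfin : (Module.finrank ℚ L : ℝ) = n * d := by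
    rw [hn, ← hj.2.2.2]
    exact_mod_cast (Module.finrank_mul_finrank ℚ K L).symm
  apply h6 L j
  · nlinarith
  · rw [hfin]
    have := sp_le_ht j
    nlinarith

end Pool.Agent.NH52.LS
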