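import Mathlib

/-!
# Roots of random polynomials: the statements

`K` is a number field, `f = f_0 + f_1 x + … + f_d x ^ d` a polynomial with integral coefficients, `j` a root of `f` such
that `L = K(j)` is of degree `d` over `K`.
-/

set_option autoImplicit false
set_option linter.unusedSectionVars false

namespace Pool.Agent.NH52.LS

open NumberField IsDedekindDomain

/-- the integers of `K` all conjugates of which are at most `Y` -/
def Box1 (K : Type) [Field K] [NumberField K] (Y : ℝ) : Set (𝓞 K) :=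
  {a | ∀ σ : K →+* ℂ, ‖σ (a : K)‖ ≤ Y}

/-- the polynomials of degree at most `d` over the integers of `K` with all coefficients in `Box1` -/
def Box (K : Type) [Field K] [NumberField K] (d : ℕ) (Y : ℝ) : Set (Fin (d + 1) → 𝓞 K) :=
  {f | ∀ i, ∀ σ : K →+* ℂ, ‖σ (f i : K)‖ ≤ Y}

/-- `f ≠ 0`, `j` is a root of `f = ∑ f_i x ^ i`, `L = K(j)` and `[L : K] = d` -/
def IsRoot {K : Type} [Field K] [NumberField K] {L : Type} [Field L] [NumberField L] [Algebra K L]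
    {d : ℕ} (f : Fin (d + 1) → 𝓞 K) (j : L) : Prop :=
  f ≠ 0 ∧ ∑ i, algebraMap K L (f i : K) * j ^ (i : ℕ) = 0 ∧
    IntermediateField.adjoin K {j} = ⊤ ∧ Module.finrank K L = d

/-- the ideal of the denominators of `j` -/
def den {L : Type} [Field L] [NumberField L] (j : L) : Ideal (𝓞 L) where
  carrier := {x | ∃ y : 𝓞 L, (x : L) * j = (y : L)}
  add_mem' := by
    rintro a b ⟨y, hy⟩ ⟨z, hz⟩
    exact ⟨y + z, by push_cast; rw [add_mul, hy, hz]⟩
  zero_mem' := ⟨0, by simp⟩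
  smul_mem' := by
    rintro c a ⟨y, hy⟩
    exact ⟨c * y, by simp only [smul_eq_mul, map_mul]; rw [mul_assoc, hy]⟩

/-- the leading coefficient generates this ideal -/
def lead {K : Type} [Field K] [NumberField K] {d : ℕ} (f : Fin (d + 1) → 𝓞 K) : Ideal (𝓞 K) :=
  Ideal.span {f (Fin.last d)}

/-- the square of no ideal of norm more than `W` divides `I` -/
def NoSq {K : Type} [Field K] [NumberField K] (W : ℝ) (I : Ideal (𝓞 K)) : Prop :=
  ∀ J : Ideal (𝓞 K), J ^ 2 ∣ I → (Ideal.absNorm J : ℝ) ≤ W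

/-- no ideal of norm more than `W` contains all coefficients -/
def SmC {K : Type} [Field K] [NumberField K] {d : ℕ} (W : ℝ) (f : Fin (d + 1) → 𝓞 K) : Prop :=
  ∀ J : Ideal (𝓞 K), (∀ i, f i ∈ J) → (Ideal.absNorm J : ℝ) ≤ W

/-- `w` does not divide six and is a simple pole of `j` -/
def SPole {L : Type} [Field L] [NumberField L] (j : L) (w : HeightOneSpectrum (𝓞 L)) : Prop :=
  (6 : 𝓞 L) ∉ w.asIdeal ∧ w.asIdeal ∣ den j ∧ ¬ w.asIdeal ^ 2 ∣ den j

/-- the norm of `t - j` -/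
def S_NRM : Prop :=
  ∀ (K : Type) [Field K] [NumberField K] (L : Type) [Field L] [NumberField L] [Algebra K L]
    (d : ℕ) (f : Fin (d + 1) → 𝓞 K) (j : L), IsRoot f j →
    f (Fin.last d) ≠ 0 ∧ ∀ t : K, (f (Fin.last d) : K) * Algebra.norm K (algebraMap K L t - j) =
      ∑ i, (f i : K) * t ^ (i : ℕ)

/-- the poles divide the leading coefficient -/
def S_GEN : Prop :=
  ∀ (K : Type) [Field K] [NumberField K] (L : Type) [Field L] [NumberField L] [Algebra K L]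
    (d : ℕ) (f : Fin (d + 1) → 𝓞 K) (j : L), IsRoot f j →
    den j ≠ ⊥ ∧ Ideal.relNorm (𝓞 K) (den j) ∣ lead f ^ d

/-- the sharp form of the last statement for large primes -/
def S_BIG : Prop :=
  ∀ (K : Type) [Field K] [NumberField K] (L : Type) [Field L] [NumberField L] [Algebra K L]
    (d : ℕ) (f : Fin (d + 1) → 𝓞 K) (j : L), IsRoot f j →
    ∀ v : HeightOneSpectrum (𝓞 K), d < Ideal.absNorm v.asIdeal → ∀ e : ℕ,
      v.asIdeal ^ e ∣ Ideal.relNorm (𝓞 K) (den j) → v.asIdeal ^ e ∣ lead f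

/-- a prime which divides the leading coefficient exactly once gives a simple pole -/
def S_SPL : Prop :=
  ∀ (K : Type) [Field K] [NumberField K] (L : Type) [Field L] [NumberField L] [Algebra K L]
    (d : ℕ) (f : Fin (d + 1) → 𝓞 K) (j : L), IsRoot f j →
    ∀ v : HeightOneSpectrum (𝓞 K), d < Ideal.absNorm v.asIdeal → v.asIdeal ∣ lead f →
      ¬ v.asIdeal ^ 2 ∣ lead f → (∃ i, f i ∉ v.asIdeal) →
      ∃ w : HeightOneSpectrum (𝓞 L), w.asIdeal.comap (algebraMap (𝓞 K) (𝓞 L)) = v.asIdeal ∧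
        Ideal.absNorm w.asIdeal = Ideal.absNorm v.asIdeal ∧ w.asIdeal ∣ den j ∧
        ¬ w.asIdeal ^ 2 ∣ den j

/-- the height and the denominator -/
def S_HTF : Prop :=
  ∀ (L : Type) [Field L] [NumberField L] (j : L), den j ≠ ⊥ ∧
    Height.logHeight₁ j = Real.log (Ideal.absNorm (den j)) +
      ∑ w : InfinitePlace L, (w.mult : ℝ) * Real.log (max (w j) 1)

/-- the archimedean part of the height -/
def S_ARC : Prop :=
  ∀ (K : Type) [Field K] [NumberField K] (L : Type) [Field L] [NumberField L] [Algebra K L]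
    (d : ℕ) (f : Fin (d + 1) → 𝓞 K) (j : L) (Y : ℝ), IsRoot f j → f ∈ Box K d Y →
    ∑ w : InfinitePlace L, (w.mult : ℝ) * Real.log (max (w j) 1) ≤
      Module.finrank ℚ K * Real.log ((d + 1 : ℝ) * Y) - Real.log (Ideal.absNorm (lead f))

/-- the finite part of the height -/
def S_FIN : Prop :=
  ∀ (K : Type) [Field K] [NumberField K] (d : ℕ), ∃ C : ℝ, 0 < C ∧
    ∀ (L : Type) [Field L] [NumberField L] [Algebra K L]
    (f : Fin (d + 1) → 𝓞 K) (j : L) (W : ℝ), IsRoot f j → 1 ≤ W → NoSq W (lead f) →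
    Real.log (Ideal.absNorm (den j)) ≤
      Real.log (Ideal.absNorm (lead f)) + C * (1 + Real.log W)

/-- the lower bound for the simple poles -/
def S_SPB : Prop :=
  ∀ (K : Type) [Field K] [NumberField K] (d : ℕ), ∃ C : ℝ, 0 < C ∧
    ∀ (L : Type) [Field L] [NumberField L] [Algebra K L]
    (f : Fin (d + 1) → 𝓞 K) (j : L) (W : ℝ), IsRoot f j → 1 ≤ W → NoSq W (lead f) → SmC W f →
    ∃ S : Finset (HeightOneSpectrum (𝓞 L)), (∀ w ∈ S, SPole j w) ∧
      Real.log (Ideal.absNorm (lead f)) - C * (1 + Real.log W) ≤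
        ∑ w ∈ S, Real.log (Ideal.absNorm w.asIdeal)

/-- the number of the elements of an ideal in the box -/
def S_IDB : Prop :=
  ∀ (K : Type) [Field K] [NumberField K], ∃ C : ℝ, 0 < C ∧ ∀ (I : Ideal (𝓞 K)) (Y : ℝ), I ≠ ⊥ →
    1 ≤ Y → (Ideal.absNorm I : ℝ) ≤ Y ^ Module.finrank ℚ K →
    {a ∈ Box1 K Y | a ∈ I}.Finite ∧
      ({a ∈ Box1 K Y | a ∈ I}.ncard : ℝ) ≤ C * Y ^ Module.finrank ℚ K / Ideal.absNorm I

/-- the number of the elements of the box of small norm -/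
def S_SMN : Prop :=
  ∀ (K : Type) [Field K] [NumberField K], ∃ C : ℝ, 0 < C ∧ ∀ (Y θ : ℝ), 1 ≤ Y → 0 < θ → θ ≤ 1 →
    1 ≤ Y * θ →
    ({a ∈ Box1 K Y | |(Algebra.norm ℚ (a : K) : ℝ)| ≤
      (Y * θ) ^ Module.finrank ℚ K}.ncard : ℝ) ≤ C * Y ^ Module.finrank ℚ K * θ

/-- the number of the elements of the box -/
def S_LOW : Prop :=
  ∀ (K : Type) [Field K] [NumberField K], ∃ C : ℝ, 0 < C ∧ ∀ Y : ℝ, 1 ≤ Y →
    Y ^ Module.finrank ℚ K ≤ C * ((Box1 K Y).ncard : ℝ)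

/-- a sum over ideals -/
def S_IDS : Prop :=
  ∀ (K : Type) [Field K] [NumberField K], ∃ C : ℝ, 0 < C ∧ ∀ (W : ℝ) (T : Finset (Ideal (𝓞 K))),
    1 ≤ W → (∀ I ∈ T, I ≠ ⊥ ∧ W < (Ideal.absNorm I : ℝ)) →
    ∑ I ∈ T, 1 / (Ideal.absNorm I : ℝ) ^ 2 ≤ C * W ^ (-(1 / 2) : ℝ)

/-- the good polynomials -/
def GoodF {K : Type} [Field K] [NumberField K] {d : ℕ} (Y θ W : ℝ) (f : Fin (d + 1) → 𝓞 K) : Prop :=
  (Y * θ) ^ Module.finrank ℚ K < (Ideal.absNorm (lead f) : ℝ) ∧ NoSq W (lead f) ∧ SmC W f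

/-- the number of the others, and of all -/
def S_CNT : Prop :=
  ∀ (K : Type) [Field K] [NumberField K] (d : ℕ), 1 ≤ d → ∃ C : ℝ, 0 < C ∧ ∀ (Y θ W : ℝ), 1 ≤ Y →
    0 < θ → θ ≤ 1 → 1 ≤ Y * θ → 1 ≤ W →
    (Box K d Y).Finite ∧
    Y ^ (Module.finrank ℚ K * (d + 1)) ≤ C * ((Box K d Y).ncard : ℝ) ∧
    ((Box K d Y).ncard : ℝ) ≤ C * Y ^ (Module.finrank ℚ K * (d + 1)) ∧
    ({f ∈ Box K d Y | ¬ GoodF Y θ W f}.ncard : ℝ) ≤
      C * Y ^ (Module.finrank ℚ K * (d + 1)) * (θ + W ^ (-(1 / 2) : ℝ))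

end Pool.Agent.NH52.LS
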