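import Mathlib
import Pool.Agent.NH52.LS.Stm

/-!
# Project LS, LS-7: the finite part of the height
-/

set_option autoImplicit false

namespace Pool.Agent.NH52.LS

open NumberField IsDedekindDomain

namespace FinPart

open UniqueFactorizationMonoid
open scoped Classical

variable {K : Type} [Field K] [NumberField K]

lemma pow_dvd_iff' {v I : Ideal (𝓞 K)} (hv : Prime v) (hI : I ≠ ⊥) (e : ℕ) :
    v ^ e ∣ I ↔ e ≤ (normalizedFactors I).count v := by
  rw [pow_dvd_iff_le_emultiplicity, emultiplicity_eq_count_normalizedFactors hv.irreducible hI,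
    normalize_eq]
  exact Nat.cast_le

lemma log_norm {I : Ideal (𝓞 K)} (hI : I ≠ ⊥) (U : Finset (Ideal (𝓞 K)))
    (hU : (normalizedFactors I).toFinset ⊆ U) (hU0 : ∀ v ∈ U, v ≠ ⊥) :
    Real.log (Ideal.absNorm I) =
      ∑ v ∈ U, ((normalizedFactors I).count v : ℝ) * Real.log (Ideal.absNorm v) := by
  have h1 : ∏ v ∈ U, v ^ (normalizedFactors I).count v = I := by
    rw [← Finset.prod_multiset_count_of_subset _ U hU]
    exact Ideal.prod_normalizedFactors_eq_self hI
  have h2 : (Ideal.absNorm I : ℝ) = ∏ v ∈ U, (Ideal.absNorm v : ℝ) ^ (normalizedFactors I).count v := by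
    conv_lhs => rw [← h1]
    rw [map_prod]
    push_cast
    refine Finset.prod_congr rfl fun v _ => ?_
    rw [map_pow]
    push_cast
    rfl
  rw [h2, Real.log_prod]
  · refine Finset.sum_congr rfl fun v _ => ?_
    rw [Real.log_pow]
  · intro v hv
    apply pow_ne_zero
    have : Ideal.absNorm v ≠ 0 := by
      rw [Ne, Ideal.absNorm_eq_zero_iff]
      exact hU0 v hv
    exact_mod_cast this

theorem core (d : ℕ) (I A : Ideal (𝓞 K)) (hI : I ≠ ⊥) (hA : A ≠ ⊥) (h1 : I ∣ A ^ d)
    (h2 : ∀ v : HeightOneSpectrum (𝓞 K), d < Ideal.absNorm v.asIdeal → ∀ e : ℕ,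
      v.asIdeal ^ e ∣ I → v.asIdeal ^ e ∣ A) (W : ℝ) (hW : 1 ≤ W) (hn : NoSq W A)
    (S : Finset (Ideal (𝓞 K))) (hS : ∀ v : Ideal (𝓞 K), Ideal.absNorm v ≤ d → v ∈ S) :
    Real.log (Ideal.absNorm I) ≤ Real.log (Ideal.absNorm A) +
      S.card * (d * (2 * Real.log W + Real.log (d + 1))) := by
  set U := (normalizedFactors A).toFinset with hU
  have hUp : ∀ v ∈ U, Prime v := fun v hv => prime_of_normalized_factor v (Multiset.mem_toFinset.1 hv)
  have hU0 : ∀ v ∈ U, v ≠ ⊥ := fun v hv => (hUp v hv).ne_zero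
  have hIU : (normalizedFactors I).toFinset ⊆ U := by
    intro v hv
    have hv' := Multiset.mem_toFinset.1 hv
    have hp := prime_of_normalized_factor v hv'
    have h3 : v ∣ A := hp.dvd_of_dvd_pow ((dvd_of_mem_normalizedFactors hv').trans h1)
    rw [hU, Multiset.mem_toFinset, Ideal.mem_normalizedFactors_iff hA]
    exact ⟨Ideal.isPrime_of_prime hp, Ideal.le_of_dvd h3⟩
  have hlogW : 0 ≤ Real.log W := Real.log_nonneg hW
  have hlogd : 0 ≤ Real.log ((d : ℝ) + 1) := Real.log_nonneg (by linarith [Nat.cast_nonneg (α := ℝ) d])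
  have hlog0 : ∀ v : Ideal (𝓞 K), 0 ≤ Real.log (Ideal.absNorm v) := fun v => Real.log_natCast_nonneg _
  set Q : ℝ := d * (2 * Real.log W + Real.log (d + 1)) with hQ
  have hQ0 : 0 ≤ Q := by positivity
  rw [log_norm hI U hIU hU0, log_norm hA U (Finset.Subset.refl _) hU0]
  have key : ∀ v ∈ U, ((normalizedFactors I).count v : ℝ) * Real.log (Ideal.absNorm v) ≤
      ((normalizedFactors A).count v : ℝ) * Real.log (Ideal.absNorm v) +
        (if Ideal.absNorm v ≤ d then Q else 0) := by
    intro v hv
    have hp := hUp v hv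
    split_ifs with hvd
    · have c1 : (normalizedFactors I).count v ≤ d * (normalizedFactors A).count v := by
        have h3 : normalizedFactors I ≤ normalizedFactors (A ^ d) :=
          (dvd_iff_normalizedFactors_le_normalizedFactors hI (pow_ne_zero d hA)).1 h1
        have h4 := Multiset.count_le_of_le v h3
        rwa [normalizedFactors_pow, Multiset.count_nsmul] at h4
      have c2 : ((normalizedFactors A).count v : ℝ) * Real.log (Ideal.absNorm v) ≤
          2 * Real.log W + Real.log (d + 1) := by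
        set c := (normalizedFactors A).count v with hc
        have h3 : (v ^ (c / 2)) ^ 2 ∣ A := by
          rw [← pow_mul, pow_dvd_iff' hp hA]
          omega
        have h4 := hn _ h3
        rw [map_pow] at h4
        push_cast at h4
        have hNpos : (0 : ℝ) < Ideal.absNorm v := by
          have : 0 < Ideal.absNorm v := Nat.pos_of_ne_zero (by
            rw [Ne, Ideal.absNorm_eq_zero_iff]
            exact hU0 v hv)
          exact_mod_cast this
        have h5 : ((c / 2 : ℕ) : ℝ) * Real.log (Ideal.absNorm v) ≤ Real.log W := by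
          rw [← Real.log_pow]
          exact Real.log_le_log (by positivity) h4
        have h6 : (c : ℝ) ≤ 2 * ((c / 2 : ℕ) : ℝ) + 1 := by
          have : c ≤ 2 * (c / 2) + 1 := by omega
          exact_mod_cast this
        have h7 : Real.log (Ideal.absNorm v) ≤ Real.log (d + 1) := by
          apply Real.log_le_log hNpos
          have : (Ideal.absNorm v : ℝ) ≤ d := by exact_mod_cast hvd
          linarith
        calc (c : ℝ) * Real.log (Ideal.absNorm v) ≤ (2 * ((c / 2 : ℕ) : ℝ) + 1) * Real.log (Ideal.absNorm v) :=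
              mul_le_mul_of_nonneg_right h6 (hlog0 v)
          _ = 2 * (((c / 2 : ℕ) : ℝ) * Real.log (Ideal.absNorm v)) + Real.log (Ideal.absNorm v) := by ring
          _ ≤ _ := by linarith
      have c3 : ((normalizedFactors I).count v : ℝ) ≤ (d : ℝ) * (normalizedFactors A).count v := by
        exact_mod_cast c1
      have c4 : 0 ≤ ((normalizedFactors A).count v : ℝ) * Real.log (Ideal.absNorm v) :=
        mul_nonneg (Nat.cast_nonneg _) (hlog0 v)
      calc ((normalizedFactors I).count v : ℝ) * Real.log (Ideal.absNorm v)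
          ≤ ((d : ℝ) * (normalizedFactors A).count v) * Real.log (Ideal.absNorm v) :=
            mul_le_mul_of_nonneg_right c3 (hlog0 v)
        _ = (d : ℝ) * (((normalizedFactors A).count v : ℝ) * Real.log (Ideal.absNorm v)) := by ring
        _ ≤ (d : ℝ) * (2 * Real.log W + Real.log (d + 1)) :=
            mul_le_mul_of_nonneg_left c2 (Nat.cast_nonneg _)
        _ ≤ _ := by rw [← hQ]; linarith
    · rw [add_zero]
      refine mul_le_mul_of_nonneg_right ?_ (hlog0 v)
      have h3 := h2 ⟨v, Ideal.isPrime_of_prime hp, hU0 v hv⟩ (not_le.1 hvd) ((normalizedFactors I).count v)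
        ((pow_dvd_iff' hp hI _).2 le_rfl)
      exact_mod_cast (pow_dvd_iff' hp hA _).1 h3
  refine (Finset.sum_le_sum key).trans ?_
  rw [Finset.sum_add_distrib]
  refine add_le_add le_rfl ?_
  rw [← Finset.sum_filter, Finset.sum_const, nsmul_eq_mul]
  refine mul_le_mul_of_nonneg_right ?_ hQ0
  have h3 : U.filter (fun v => Ideal.absNorm v ≤ d) ⊆ S := fun v hv => hS v (Finset.mem_filter.1 hv).2
  exact_mod_cast Finset.card_le_card h3

end FinPart

open FinPart in
theorem t_FIN (h1 : S_NRM) (h2 : S_GEN) (h3 : S_BIG) : S_FIN := by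
  classical
  intro K _ _ d
  have hfin := Ideal.finite_setOfPred_absNorm_le (S := 𝓞 K) d
  set S : Finset (Ideal (𝓞 K)) := hfin.toFinset with hS
  have hlogd : 0 ≤ Real.log ((d : ℝ) + 1) := Real.log_nonneg (by linarith [Nat.cast_nonneg (α := ℝ) d])
  refine ⟨S.card * (d * (2 + Real.log (d + 1))) + 1, by positivity, ?_⟩
  intro L _ _ _ f j W hr hW hn
  have hf := (h1 K L d f j hr).1
  have hA : lead f ≠ ⊥ := by
    unfold lead
    rw [Ne, Ideal.span_singleton_eq_bot]
    exact hf
  obtain ⟨hden, hdvd⟩ := h2 K L d f j hr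
  have hI : Ideal.relNorm (𝓞 K) (den j) ≠ ⊥ := by
    rw [Ne, Ideal.relNorm_eq_bot_iff]
    exact hden
  have hlogW : 0 ≤ Real.log W := Real.log_nonneg hW
  have key := core d (Ideal.relNorm (𝓞 K) (den j)) (lead f) hI hA hdvd (h3 K L d f j hr) W hW hn S
    (fun v hv => by rw [hS, Set.Finite.mem_toFinset]; exact hv)
  rw [Ideal.absNorm_relNorm] at key
  refine key.trans (add_le_add le_rfl ?_)
  have e1 : (d : ℝ) * (2 * Real.log W + Real.log (d + 1)) ≤ (d * (2 + Real.log (d + 1))) * (1 + Real.log W) := by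
    have : 0 ≤ (d : ℝ) * (2 + Real.log (d + 1) * Real.log W) := by positivity
    nlinarith
  calc (S.card : ℝ) * (d * (2 * Real.log W + Real.log (d + 1)))
      ≤ S.card * ((d * (2 + Real.log (d + 1))) * (1 + Real.log W)) :=
        mul_le_mul_of_nonneg_left e1 (Nat.cast_nonneg _)
    _ ≤ (S.card * (d * (2 + Real.log (d + 1))) + 1) * (1 + Real.log W) := by
        have : 0 ≤ 1 + Real.log W := by linarith
        nlinarith

end Pool.Agent.NH52.LS
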