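import Pool.Agent.NH52.LS.Stm

/-!
# LS-2: the poles divide the leading coefficient
-/

set_option autoImplicit false

namespace Pool.Agent.NH52.LS

open NumberField IsDedekindDomain Polynomial

namespace Gen

variable {K : Type} [Field K] [NumberField K] {L : Type} [Field L] [NumberField L] [Algebra K L]
  {d : ℕ}

/-- the polynomial -/
noncomputable def F (f : Fin (d + 1) → 𝓞 K) : (𝓞 K)[X] := ∑ i, C (f i) * X ^ (i : ℕ)

theorem coeff_F (f : Fin (d + 1) → 𝓞 K) : (F f).coeff d = f (Fin.last d) := by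
  unfold F
  rw [finset_sum_coeff, Finset.sum_eq_single (Fin.last d)]
  · rw [coeff_C_mul, coeff_X_pow, if_pos (by simp), mul_one]
  · intro i _ hi
    rw [coeff_C_mul, coeff_X_pow, if_neg, mul_zero]
    intro h
    exact hi (Fin.ext (by rw [Fin.val_last]; exact h.symm))
  · intro h
    exact absurd (Finset.mem_univ _) h

theorem natDegree_F (f : Fin (d + 1) → 𝓞 K) (h : f (Fin.last d) ≠ 0) : (F f).natDegree = d := by
  refine natDegree_eq_of_le_of_coeff_ne_zero ?_ (by rw [coeff_F]; exact h)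
  unfold F
  refine natDegree_sum_le_of_forall_le _ _ fun i _ => ?_
  refine (natDegree_C_mul_X_pow_le _ _).trans ?_
  omega

theorem lead_F (f : Fin (d + 1) → 𝓞 K) (h : f (Fin.last d) ≠ 0) :
    (F f).leadingCoeff = f (Fin.last d) := by
  unfold leadingCoeff
  rw [natDegree_F f h, coeff_F]

theorem mem_den (f : Fin (d + 1) → 𝓞 K) (h : f (Fin.last d) ≠ 0) (j : L)
    (hj : ∑ i, algebraMap K L (f i : K) * j ^ (i : ℕ) = 0) :
    algebraMap (𝓞 K) (𝓞 L) (f (Fin.last d)) ∈ den j := by
  have h1 : aeval j (F f) = 0 := by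
    unfold F
    rw [map_sum, ← hj]
    refine Finset.sum_congr rfl fun i _ => ?_
    rw [map_mul, map_pow, aeval_C, aeval_X]
    rfl
  have h2 := isIntegral_leadingCoeff_smul (F f) j h1
  rw [lead_F f h] at h2
  have h3 : IsIntegral ℤ (f (Fin.last d) • j) := isIntegral_trans (R := ℤ) (A := 𝓞 K) _ h2
  have h4 : f (Fin.last d) • j = algebraMap (𝓞 K) L (f (Fin.last d)) * j := Algebra.smul_def _ _
  exact ⟨⟨f (Fin.last d) • j, h3⟩, h4.symm⟩

end Gen

open Gen in
theorem t_GEN (h : S_NRM) : S_GEN := by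
  intro K _ _ L _ _ _ d f j hj
  have hf := (h K L d f j hj).1
  obtain ⟨_, h1, _, h3⟩ := hj
  have hm := mem_den f hf j h1
  have hinj : Function.Injective (algebraMap (𝓞 K) (𝓞 L)) :=
    FaithfulSMul.algebraMap_injective (𝓞 K) (𝓞 L)
  refine ⟨?_, ?_⟩
  · intro hb
    rw [hb, Ideal.mem_bot] at hm
    exact hf (hinj (by rw [hm, map_zero]))
  · have h4 : den j ∣ (lead f).map (algebraMap (𝓞 K) (𝓞 L)) := by
      rw [Ideal.dvd_iff_le]
      unfold lead
      rw [Ideal.map_span, Set.image_singleton, Ideal.span_singleton_le_iff_mem]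
      exact hm
    have h5 := map_dvd (Ideal.relNorm (𝓞 K)) h4
    rw [Ideal.relNorm_algebraMap] at h5
    have h6 : Module.finrank (𝓞 K) (𝓞 L) = d := by
      rw [← h3]
      exact (Algebra.IsAlgebraic.finrank_of_isFractionRing (𝓞 K) K (𝓞 L) L).symm
    rwa [h6] at h5

end Pool.Agent.NH52.LS
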