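import Pool.Agent.NH52.LS.Stm2
import Pool.Agent.Y733.LS.Bad
import Pool.Agent.H691R3.Rep

/-!
# The simple poles in the two languages
-/

set_option autoImplicit false
set_option linter.unusedSectionVars false

namespace Pool.Agent.NH52.LS

open NumberField IsDedekindDomain Pool.Agent.H691R3 Pool.Agent.W223.AK Pool.Agent.Y733.LS Pool.Agent.Y733.UD
  Pool.Agent.TH942 Pool.Agent.TH910.LS

namespace Glu

variable {L : Type} [Field L] [NumberField L]

theorem six {w : HeightOneSpectrum (𝓞 L)} (h : (6 : 𝓞 L) ∉ w.asIdeal) :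
    fv w (2 : L) = 1 ∧ fv w (3 : L) = 1 := by
  have h1 := fv_eq_one_of_notMem w h
  have h2 : ((6 : 𝓞 L) : L) = 2 * 3 := by
    have e : ((6 : 𝓞 L) : L) = 6 := map_ofNat (algebraMap (𝓞 L) L) 6
    rw [e]
    norm_num
  rw [h2, map_mul] at h1
  have h3 : fv w (2 : L) ≤ 1 := by
    have := fv_int_le_one w (2 : 𝓞 L)
    have e : ((2 : 𝓞 L) : L) = 2 := map_ofNat (algebraMap (𝓞 L) L) 2
    rwa [e] at this
  have h4 : fv w (3 : L) ≤ 1 := by
    have := fv_int_le_one w (3 : 𝓞 L)
    have e : ((3 : 𝓞 L) : L) = 3 := map_ofNat (algebraMap (𝓞 L) L) 3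
    rwa [e] at this
  have h5 : 0 ≤ fv w (2 : L) := (fv w).nonneg _
  have h6 : 0 ≤ fv w (3 : L) := (fv w).nonneg _
  constructor
  · nlinarith
  · nlinarith

theorem pole {j : L} {w : HeightOneSpectrum (𝓞 L)} (h1 : w.asIdeal ∣ den j)
    (h2 : ¬ w.asIdeal ^ 2 ∣ den j) : fv w j = Nv w := by
  have hN : 1 < Nv w := Nv_one_lt w
  have hj : 1 < fv w j := by
    by_contra hcon
    push Not at hcon
    obtain ⟨b, s, hs, he⟩ := exists_rep w hcon
    apply hs
    refine Ideal.dvd_iff_le.1 h1 ?_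
    exact ⟨b, by rw [mul_comm]; exact he⟩
  have hj0 : j ≠ 0 := by
    rintro rfl
    rw [map_zero] at hj
    linarith
  obtain ⟨m, hm⟩ := fv_zpow w hj0
  have hm1 : 0 < m := by
    by_contra hcon
    push Not at hcon
    rw [hm] at hj
    have := zpow_le_one_of_nonpos₀ hN.le hcon
    linarith
  have hm2 : m < 2 := by
    by_contra hcon
    push Not at hcon
    apply h2
    rw [Ideal.dvd_iff_le]
    rintro x ⟨y, hy⟩
    rw [← fv_le_pow_iff]
    have h3 : fv w (x : L) * fv w j ≤ 1 := by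
      rw [← map_mul, hy]
      exact fv_int_le_one w y
    rw [hm] at h3
    have hNm : 0 < Nv w ^ m := zpow_pos (by linarith) m
    have h4 : fv w (x : L) ≤ Nv w ^ (-m) := by
      rw [zpow_neg, ← one_div, le_div_iff₀ hNm]
      exact h3
    refine h4.trans ?_
    refine zpow_le_zpow_right₀ hN.le ?_
    push_cast
    omega
  have hm3 : m = 1 := by omega
  rw [hm, hm3, zpow_one]

end Glu

open Glu in
theorem t_GLU : S_GLU := by
  classical
  intro L _ _ j S _ hS
  have h1 : ∀ w ∈ S, Sp j w := by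
    intro w hw
    obtain ⟨h6, hd, hd2⟩ := hS w hw
    exact ⟨(six h6).1, (six h6).2, pole hd hd2⟩
  have h2 : ∑ w ∈ S, Real.log (Ideal.absNorm w.asIdeal) =
      ∑ w ∈ S, (if Sp j w then Real.log (Nv w) else 0) := by
    refine Finset.sum_congr rfl fun w hw => ?_
    rw [if_pos (h1 w hw)]
    rfl
  rw [h2]
  unfold sp
  refine le_trans (sum_le_fin S (Fs_sp j) fun w => ?_) (le_of_eq ?_)
  · split_ifs
    · exact (log_Nv_pos w).le
    · exact le_rfl
  · refine finsum_congr fun w => ?_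
    congr 1

end Pool.Agent.NH52.LS
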