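import Pool.Agent.NH52.LS.Stm

set_option autoImplicit false

/-!
# The height and the ideal of denominators
-/

namespace Pool.Agent.NH52.LS.Htf

open NumberField IsDedekindDomain Height

variable {L : Type} [Field L] [NumberField L]

theorem mem_den {a b : 𝓞 L} (hb : b ≠ 0) (x : 𝓞 L) :
    x ∈ den ((a : L) / (b : L)) ↔ x * a ∈ Ideal.span {b} := by
  have hb' : (b : L) ≠ 0 := by
    intro h
    exact hb (RingOfIntegers.ext (by simpa using h))
  show (∃ y : 𝓞 L, (x : L) * ((a : L) / (b : L)) = (y : L)) ↔ _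
  rw [Ideal.mem_span_singleton']
  constructor
  · rintro ⟨y, hy⟩
    refine ⟨y, RingOfIntegers.ext ?_⟩
    rw [← mul_div_assoc, div_eq_iff hb'] at hy
    push_cast
    exact hy.symm
  · rintro ⟨y, hy⟩
    refine ⟨y, ?_⟩
    have h2 := congrArg (fun z : 𝓞 L => (z : L)) hy
    simp only [map_mul] at h2
    rw [← mul_div_assoc, div_eq_iff hb']
    exact h2.symm

theorem den_mul {a b : 𝓞 L} (hb : b ≠ 0) :
    den ((a : L) / (b : L)) * Ideal.span {a, b} = Ideal.span {b} := by
  have hdvd : Ideal.span {a, b} ∣ Ideal.span {b} := by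
    rw [Ideal.dvd_iff_le]
    exact Ideal.span_mono (by simp)
  obtain ⟨J, hJ⟩ := hdvd
  have hne : Ideal.span {a, b} ≠ ⊥ := by
    intro h
    rw [Ideal.span_eq_bot] at h
    exact hb (h b (by simp))
  have hden : den ((a : L) / (b : L)) = J := by
    ext x
    rw [mem_den hb]
    constructor
    · intro hx
      have h1 : Ideal.span {a, b} * Ideal.span {x} ≤ Ideal.span {a, b} * J := by
        rw [← hJ, Ideal.mul_le]
        intro r hr s hs
        rw [Ideal.mem_span_singleton'] at hs
        obtain ⟨c, rfl⟩ := hs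
        rw [Ideal.mem_span_pair] at hr
        obtain ⟨u, v, rfl⟩ := hr
        have e : (u * a + v * b) * (c * x) = (u * c) * (x * a) + (v * c * x) * b := by ring
        rw [e]
        exact Ideal.add_mem _ (Ideal.mul_mem_left _ _ hx)
          (Ideal.mul_mem_left _ _ (Ideal.mem_span_singleton_self b))
      have h2 : Ideal.span {a, b} * J ∣ Ideal.span {a, b} * Ideal.span {x} :=
        Ideal.dvd_iff_le.2 h1
      have h3 : J ∣ Ideal.span {x} := (mul_dvd_mul_iff_left hne).1 h2
      exact (Ideal.dvd_iff_le.1 h3) (Ideal.mem_span_singleton_self x)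
    · intro hx
      rw [hJ, mul_comm x a]
      exact Ideal.mul_mem_mul (Ideal.subset_span (by simp)) hx
  rw [hden, hJ, mul_comm]

theorem fin_part (a b : 𝓞 L) (hb : b ≠ 0) :
    ((Ideal.absNorm (den ((a : L) / (b : L))) : ℕ) : ℝ) =
      ∏ᶠ v : FinitePlace L, max (v ((a : L) / (b : L))) 1 := by
  have hb' : (b : L) ≠ 0 := by
    intro h
    exact hb (RingOfIntegers.ext (by simpa using h))
  have h1 := absNorm_mul_finprod_finitePlace_eq_one (K := L) (x := ![a, b]) (by
    intro h
    exact hb (by simpa using congrFun h 1))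
  have h2 := absNorm_mul_finprod_finitePlace_eq_one (K := L) (x := ![b]) (by
    intro h
    exact hb (by simpa using congrFun h 0))
  have hs : (Function.HasFiniteMulSupport
      fun v : FinitePlace L => max (v ((a : L) / (b : L))) 1) := by
    rcases eq_or_ne ((a : L) / (b : L)) 0 with h | h
    · have e : (fun v : FinitePlace L => max (v ((a : L) / (b : L))) 1) = fun _ => 1 := by
        funext v
        rw [h, map_zero, max_eq_right zero_le_one]
      rw [e]
      exact Function.hasFiniteMulSupport_one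
    · exact (FinitePlace.hasFiniteMulSupport h).max Function.hasFiniteMulSupport_one
  have e1 : (∏ᶠ v : FinitePlace L, ⨆ i, v ((![a, b] i : 𝓞 L) : L)) =
      (∏ᶠ v : FinitePlace L, max (v ((a : L) / (b : L))) 1) * ∏ᶠ v : FinitePlace L, v (b : L) := by
    rw [← finprod_mul_distrib hs (FinitePlace.hasFiniteMulSupport hb')]
    apply finprod_congr
    intro v
    have hv : 0 < v (b : L) := FinitePlace.pos_iff.2 hb'
    rw [map_div₀, max_mul_of_nonneg _ _ hv.le, div_mul_cancel₀ _ hv.ne', one_mul]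
    apply le_antisymm
    · apply ciSup_le
      intro i
      fin_cases i
      · exact le_max_left _ _
      · exact le_max_right _ _
    · apply max_le
      · exact le_ciSup (f := fun i => v ((![a, b] i : 𝓞 L) : L)) (Set.finite_range _).bddAbove 0
      · exact le_ciSup (f := fun i => v ((![a, b] i : 𝓞 L) : L)) (Set.finite_range _).bddAbove 1
  have e2 : (∏ᶠ v : FinitePlace L, ⨆ i, v ((![b] i : 𝓞 L) : L)) =
      ∏ᶠ v : FinitePlace L, v (b : L) := by
    apply finprod_congr
    intro v
    rw [ciSup_unique]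
    rfl
  rw [e1] at h1
  rw [e2] at h2
  have r1 : Set.range ![a, b] = {a, b} := by simp [Set.pair_comm]
  have r2 : Set.range ![b] = {b} := by simp
  rw [r1] at h1
  rw [r2] at h2
  have h3 := congrArg (fun I : Ideal (𝓞 L) => ((Ideal.absNorm I : ℕ) : ℝ)) (den_mul (a := a) hb)
  simp only [map_mul, Nat.cast_mul] at h3
  set P := ∏ᶠ v : FinitePlace L, v (b : L) with hP
  set F := ∏ᶠ v : FinitePlace L, max (v ((a : L) / (b : L))) 1 with hF
  have hP0 : P ≠ 0 := by
    intro h
    rw [h, mul_zero] at h2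
    exact zero_ne_one h2
  have hI0 : ((Ideal.absNorm (Ideal.span {a, b}) : ℕ) : ℝ) ≠ 0 := by
    intro h
    rw [h, zero_mul] at h1
    exact zero_ne_one h1
  have h4 : ((Ideal.absNorm (den ((a : L) / (b : L))) : ℕ) : ℝ) *
      ((Ideal.absNorm (Ideal.span {a, b}) : ℕ) : ℝ) * P =
      F * ((Ideal.absNorm (Ideal.span {a, b}) : ℕ) : ℝ) * P := by
    rw [h3, h2, ← h1]
    ring
  exact mul_right_cancel₀ hI0 (mul_right_cancel₀ hP0 h4)

end Pool.Agent.NH52.LS.Htf

namespace Pool.Agent.NH52.LS

open NumberField IsDedekindDomain Height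

theorem t_HTF : S_HTF := by
  intro L _ _ j
  obtain ⟨a, b, hb, rfl⟩ := IsFractionRing.div_surjective (A := 𝓞 L) j
  have hb0 : b ≠ 0 := nonZeroDivisors.ne_zero hb
  have hfin := Htf.fin_part a b hb0
  have hmul := Htf.den_mul (a := a) hb0
  change den ((a : L) / (b : L)) ≠ ⊥ ∧ logHeight₁ ((a : L) / (b : L)) = _
  have hne : den ((a : L) / (b : L)) ≠ ⊥ := by
    intro h
    rw [h, Ideal.bot_mul] at hmul
    exact hb0 (Ideal.span_singleton_eq_bot.1 hmul.symm)
  refine ⟨hne, ?_⟩
  have hN : (0 : ℝ) < ((Ideal.absNorm (den ((a : L) / (b : L))) : ℕ) : ℝ) := by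
    have := Nat.pos_of_ne_zero (mt Ideal.absNorm_eq_zero_iff.1 hne)
    exact_mod_cast this
  have hprod : ∀ w : InfinitePlace L, 0 < max (w ((a : L) / (b : L))) 1 ^ w.mult :=
    fun w => pow_pos (lt_of_lt_of_le one_pos (le_max_right _ _)) _
  rw [logHeight₁_eq_log_mulHeight₁, NumberField.mulHeight₁_eq, ← hfin,
    Real.log_mul (Finset.prod_pos fun w _ => hprod w).ne' hN.ne',
    Real.log_prod (fun w _ => (hprod w).ne'), add_comm]
  congr 1
  exact Finset.sum_congr rfl fun w _ => Real.log_pow _ _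

end Pool.Agent.NH52.LS
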