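import Pool.Agent.NH52.LS.Stm

/-! The number of the elements of an ideal in the box. -/

set_option autoImplicit false
set_option linter.unusedSectionVars false

namespace Pool.Agent.NH52.LS

open NumberField

namespace Idb

variable {K : Type} [Field K] [NumberField K]

/-- the number of the integers in a symmetric interval -/
theorem card_Icc_le {x : ℝ} (hx : 2 ≤ x) : ((Finset.Icc ⌊-x⌋ ⌊x⌋).card : ℝ) ≤ 3 * x := by
  rw [Int.card_Icc]
  have h1 : ⌊-x⌋ ≤ ⌊x⌋ := Int.floor_le_floor (by linarith)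
  have h2 : ((⌊x⌋ + 1 - ⌊-x⌋).toNat : ℤ) = ⌊x⌋ + 1 - ⌊-x⌋ := Int.toNat_of_nonneg (by omega)
  have h3 : (((⌊x⌋ + 1 - ⌊-x⌋).toNat : ℕ) : ℝ) = (⌊x⌋ : ℝ) + 1 - (⌊-x⌋ : ℝ) := by
    have h4 := congrArg (fun z : ℤ => (z : ℝ)) h2
    push_cast at h4
    exact h4
  rw [h3]
  have h4 := Int.floor_le x
  have h5 := Int.lt_floor_add_one (-x)
  linarith

theorem mem_Icc_of_abs {x y t : ℝ} (h : |y| ≤ x) (ht : t = y) : ⌊t⌋ ∈ Finset.Icc ⌊-x⌋ ⌊x⌋ := by
  rw [ht, Finset.mem_Icc]
  obtain ⟨h1, h2⟩ := abs_le.1 h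
  exact ⟨Int.floor_le_floor h1, Int.floor_le_floor h2⟩

/-- the cell of an integer -/
noncomputable def cell (s : ℝ) (a : 𝓞 K) (w : InfinitePlace K) : ℤ × ℤ :=
  (⌊2 * (w.embedding (a : K)).re / s⌋, ⌊2 * (w.embedding (a : K)).im / s⌋)

theorem abs_sub_lt {s x y : ℝ} (hs : 0 < s) (h : ⌊2 * x / s⌋ = ⌊2 * y / s⌋) :
    |x - y| < s / 2 := by
  have h1 : |2 * x / s - 2 * y / s| < 1 := Int.abs_sub_lt_one_of_floor_eq_floor h
  have h2 : 2 * x / s - 2 * y / s = 2 / s * (x - y) := by ring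
  rw [h2, abs_mul, abs_of_pos (by positivity : (0 : ℝ) < 2 / s)] at h1
  have h3 : |x - y| = s / 2 * (2 / s * |x - y|) := by field_simp
  rw [h3]
  calc s / 2 * (2 / s * |x - y|) < s / 2 * 1 := mul_lt_mul_of_pos_left h1 (by positivity)
    _ = s / 2 := mul_one _

/-- a set of integers which are far apart -/
theorem count {s : ℝ} (hs : 0 < s) (B : InfinitePlace K → ℝ) (hB : ∀ w, s ≤ B w) (A : Set (𝓞 K))
    (hA : ∀ a ∈ A, ∀ w : InfinitePlace K, w (a : K) ≤ B w)
    (hA' : ∀ a ∈ A, ∀ b ∈ A, (∀ w : InfinitePlace K, w ((a : K) - b) < s) → a = b) :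
    A.Finite ∧ (A.ncard : ℝ) ≤ ∏ w : InfinitePlace K, (6 * B w / s) ^ w.mult := by
  classical
  set T : Finset (InfinitePlace K → ℤ × ℤ) := Fintype.piFinset fun w =>
    Finset.Icc ⌊-(2 * B w / s)⌋ ⌊2 * B w / s⌋ ×ˢ
      (if w.IsReal then {0} else Finset.Icc ⌊-(2 * B w / s)⌋ ⌊2 * B w / s⌋) with hT
  have hmem : ∀ a ∈ A, cell s a ∈ (T : Set (InfinitePlace K → ℤ × ℤ)) := by
    intro a ha
    rw [Finset.mem_coe, hT, Fintype.mem_piFinset]
    intro w
    have h1 : ‖w.embedding (a : K)‖ ≤ B w := by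
      rw [InfinitePlace.norm_embedding_eq]; exact hA a ha w
    have key : ∀ t : ℝ, |t| ≤ ‖w.embedding (a : K)‖ → |2 * t / s| ≤ 2 * B w / s := by
      intro t ht
      rw [abs_div, abs_mul, abs_of_pos hs, abs_of_pos (by norm_num : (0 : ℝ) < 2)]
      apply div_le_div_of_nonneg_right _ hs.le
      linarith
    rw [Finset.mem_product]
    refine ⟨mem_Icc_of_abs (key _ (Complex.abs_re_le_norm _)) rfl, ?_⟩
    by_cases hw : w.IsReal
    · rw [if_pos hw]
      have h2 : (w.embedding (a : K)).im = 0 := by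
        rw [← InfinitePlace.embedding_of_isReal_apply hw]
        exact Complex.ofReal_im _
      simp only [cell, h2, mul_zero, zero_div, Int.floor_zero, Finset.mem_singleton]
    · rw [if_neg hw]
      exact mem_Icc_of_abs (key _ (Complex.abs_im_le_norm _)) rfl
  have hinj : Set.InjOn (cell s) A := by
    intro a ha b hb hab
    apply hA' a ha b hb
    intro w
    have h1 := congrFun hab w
    have h2 := abs_sub_lt hs (congrArg Prod.fst h1)
    have h3 := abs_sub_lt hs (congrArg Prod.snd h1)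
    rw [← InfinitePlace.norm_embedding_eq, map_sub]
    calc ‖w.embedding (a : K) - w.embedding (b : K)‖
        ≤ |(w.embedding (a : K) - w.embedding (b : K)).re| +
          |(w.embedding (a : K) - w.embedding (b : K)).im| := Complex.norm_le_abs_re_add_abs_im _
      _ < s / 2 + s / 2 := by
          rw [Complex.sub_re, Complex.sub_im]
          exact add_lt_add h2 h3
      _ = s := by ring
  refine ⟨Set.Finite.of_injOn hmem hinj T.finite_toSet, ?_⟩
  have h1 : A.ncard ≤ T.card := by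
    rw [← Set.ncard_coe_finset]
    exact Set.ncard_le_ncard_of_injOn _ hmem hinj T.finite_toSet
  have h2 : (T.card : ℝ) ≤ ∏ w : InfinitePlace K, (6 * B w / s) ^ w.mult := by
    rw [hT, Fintype.card_piFinset, Nat.cast_prod]
    apply Finset.prod_le_prod
    · intro w _; positivity
    · intro w _
      have h3 : (2 : ℝ) ≤ 2 * B w / s := by
        rw [le_div_iff₀ hs]
        have := hB w
        linarith
      have h4 := card_Icc_le h3
      have h5 : 3 * (2 * B w / s) = 6 * B w / s := by ring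
      rw [h5] at h4
      rw [Finset.card_product, Nat.cast_mul]
      by_cases hw : w.IsReal
      · rw [if_pos hw, Finset.card_singleton, Nat.cast_one, mul_one, InfinitePlace.mult, if_pos hw,
          pow_one]
        exact h4
      · rw [if_neg hw, InfinitePlace.mult, if_neg hw, sq]
        exact mul_le_mul h4 h4 (Nat.cast_nonneg _) ((Nat.cast_nonneg _).trans h4)
  exact (Nat.cast_le.2 h1).trans h2

/-- the norms of the elements of an ideal -/
theorem norm_ge {I : Ideal (𝓞 K)} {x : 𝓞 K} (hx : x ∈ I) (h0 : x ≠ 0) :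
    (Ideal.absNorm I : ℝ) ≤ |((Algebra.norm ℚ (x : K) : ℚ) : ℝ)| := by
  have h1 : (Ideal.absNorm I : ℤ) ∣ Algebra.norm ℤ x := Ideal.absNorm_dvd_norm_of_mem hx
  have h2 : Algebra.norm ℤ x ≠ 0 := Algebra.norm_ne_zero_iff.2 h0
  have h3 : (Ideal.absNorm I : ℤ) ≤ |Algebra.norm ℤ x| :=
    Int.le_of_dvd (abs_pos.2 h2) ((dvd_abs _ _).2 h1)
  have h4 : ((Algebra.norm ℤ x : ℤ) : ℚ) = Algebra.norm ℚ (x : K) := Algebra.coe_norm_int x
  rw [← h4]
  have h5 : ((Ideal.absNorm I : ℤ) : ℝ) ≤ ((|Algebra.norm ℤ x| : ℤ) : ℝ) := Int.cast_le.2 h3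
  push_cast at h5
  push_cast
  exact h5

theorem prod_mult (c : ℝ) : ∏ w : InfinitePlace K, c ^ w.mult = c ^ Module.finrank ℚ K := by
  rw [Finset.prod_pow_eq_pow_sum, InfinitePlace.sum_mult_eq]

/-- elements of an ideal which are near to each other are equal -/
theorem eq_of_near {I : Ideal (𝓞 K)} {s : ℝ} (hs : 0 < s)
    (hI : s ^ Module.finrank ℚ K ≤ (Ideal.absNorm I : ℝ)) {a b : 𝓞 K} (ha : a ∈ I) (hb : b ∈ I)
    (h : ∀ w : InfinitePlace K, w ((a : K) - b) < s) : a = b := by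
  by_contra hab
  have h0 : a - b ≠ 0 := sub_ne_zero.2 hab
  have h1 := norm_ge (I.sub_mem ha hb) h0
  rw [← Rat.cast_abs, ← InfinitePlace.prod_eq_abs_norm] at h1
  have h2 : ((a - b : 𝓞 K) : K) = (a : K) - b := by push_cast; rfl
  have h3 : ((a - b : 𝓞 K) : K) ≠ 0 := by
    rw [Ne, RingOfIntegers.coe_eq_zero_iff]; exact h0
  have h4 : ∏ w : InfinitePlace K, w ((a - b : 𝓞 K) : K) ^ w.mult <
      ∏ w : InfinitePlace K, s ^ w.mult := by
    apply Finset.prod_lt_prod_of_nonempty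
    · intro w _
      exact pow_pos ((InfinitePlace.pos_iff).2 h3) _
    · intro w _
      apply pow_lt_pow_left₀ _ (apply_nonneg _ _) w.mult_ne_zero
      rw [h2]; exact h w
    · exact Finset.univ_nonempty
  rw [prod_mult] at h4
  linarith

theorem le_of_box {Y : ℝ} {a : 𝓞 K} (ha : a ∈ Box1 K Y) (w : InfinitePlace K) : w (a : K) ≤ Y := by
  rw [← InfinitePlace.norm_embedding_eq]
  exact ha w.embedding

end Idb

open Idb in
theorem t_IDB : S_IDB := by
  intro K _ _
  refine ⟨6 ^ Module.finrank ℚ K, by positivity, fun I Y hI hY hN => ?_⟩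
  have hn : Module.finrank ℚ K ≠ 0 := Module.finrank_pos.ne'
  have hN0 : (0 : ℝ) < Ideal.absNorm I := by
    rw [Nat.cast_pos]
    exact Nat.pos_of_ne_zero (fun h => hI (Ideal.absNorm_eq_zero_iff.1 h))
  set s : ℝ := (Ideal.absNorm I : ℝ) ^ ((Module.finrank ℚ K : ℝ)⁻¹) with hs
  have hs0 : 0 < s := Real.rpow_pos_of_pos hN0 _
  have hsn : s ^ Module.finrank ℚ K = (Ideal.absNorm I : ℝ) :=
    Real.rpow_inv_natCast_pow hN0.le hn
  have hsY : s ≤ Y := by
    apply le_of_pow_le_pow_left₀ hn (by linarith)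
    rw [hsn]; exact hN
  have h1 := count hs0 (fun _ => Y) (fun _ => hsY) {a ∈ Box1 K Y | a ∈ I}
    (fun a ha w => le_of_box ha.1 w)
    (fun a ha b hb h => eq_of_near hs0 hsn.le ha.2 hb.2 h)
  refine ⟨h1.1, h1.2.trans (le_of_eq ?_)⟩
  rw [prod_mult, div_pow, mul_pow, hsn]

end Pool.Agent.NH52.LS
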