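import Pool.Agent.NH52.LS.Stm

set_option autoImplicit false

namespace Pool.Agent.NH52.LS

open NumberField IsDedekindDomain Filter

/-- the number of the ideals of bounded norm -/
lemma Ids.cnt (K : Type) [Field K] [NumberField K] : ∃ M : ℝ, 0 < M ∧ ∀ n : ℕ, 1 ≤ n →
    (({I : Ideal (𝓞 K) | (Ideal.absNorm I : ℝ) ≤ (n : ℝ)}.ncard : ℕ) : ℝ) ≤ M * n := by
  have h1 := (NumberField.Ideal.tendsto_norm_le_div_atTop K).comp tendsto_natCast_atTop_atTop
  obtain ⟨M, hM⟩ := h1.bddAbove_range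
  refine ⟨max M 1, lt_max_of_lt_right one_pos, fun n hn => ?_⟩
  have h2 := hM (Set.mem_range_self n)
  have hn0 : (0 : ℝ) < n := by exact_mod_cast hn
  simp only [Function.comp_apply] at h2
  rw [div_le_iff₀ hn0] at h2
  refine le_trans ?_ (h2.trans (mul_le_mul_of_nonneg_right (le_max_left _ _) hn0.le))
  exact le_of_eq (by rfl)

lemma Ids.fib (K : Type) [Field K] [NumberField K] (M : ℝ)
    (hM : ∀ n : ℕ, 1 ≤ n →
      (({I : Ideal (𝓞 K) | (Ideal.absNorm I : ℝ) ≤ (n : ℝ)}.ncard : ℕ) : ℝ) ≤ M * n)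
    (k : ℕ) (T : Finset (Ideal (𝓞 K)))
    (hT : ∀ I ∈ T, 2 ^ k ≤ Ideal.absNorm I ∧ Ideal.absNorm I < 2 ^ (k + 1)) :
    ∑ I ∈ T, 1 / (Ideal.absNorm I : ℝ) ^ 2 ≤ 2 * M * (1 / 2) ^ k := by
  have hfin : {I : Ideal (𝓞 K) | (Ideal.absNorm I : ℝ) ≤ ((2 ^ (k + 1) : ℕ) : ℝ)}.Finite := by
    refine (Ideal.finite_setOfPred_absNorm_le (S := 𝓞 K) (2 ^ (k + 1))).subset fun I hI => ?_
    have : (Ideal.absNorm I : ℝ) ≤ ((2 ^ (k + 1) : ℕ) : ℝ) := hI
    exact_mod_cast this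
  have h1 : (T.card : ℝ) ≤ M * ((2 ^ (k + 1) : ℕ) : ℝ) := by
    refine le_trans ?_ (hM (2 ^ (k + 1)) Nat.one_le_two_pow)
    have h2 : (T : Set (Ideal (𝓞 K))) ⊆ {I : Ideal (𝓞 K) | (Ideal.absNorm I : ℝ) ≤ ((2 ^ (k + 1) : ℕ) : ℝ)} := by
      intro I hI
      have := (hT I hI).2.le
      show (Ideal.absNorm I : ℝ) ≤ ((2 ^ (k + 1) : ℕ) : ℝ)
      exact_mod_cast this
    have h3 := Set.ncard_le_ncard h2 hfin
    rw [Set.ncard_coe_finset] at h3
    exact_mod_cast h3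
  calc ∑ I ∈ T, 1 / (Ideal.absNorm I : ℝ) ^ 2 ≤ ∑ _I ∈ T, 1 / (4 : ℝ) ^ k := by
        refine Finset.sum_le_sum fun I hI => ?_
        have h4 : ((2 : ℝ) ^ k) ≤ (Ideal.absNorm I : ℝ) := by exact_mod_cast (hT I hI).1
        have h5 : (4 : ℝ) ^ k = (2 ^ k) ^ 2 := by
          rw [← pow_mul, mul_comm, pow_mul]
          norm_num
        rw [h5]
        exact one_div_le_one_div_of_le (by positivity) (pow_le_pow_left₀ (by positivity) h4 2)
    _ = T.card * (1 / (4 : ℝ) ^ k) := by rw [Finset.sum_const, nsmul_eq_mul]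
    _ ≤ (M * ((2 ^ (k + 1) : ℕ) : ℝ)) * (1 / (4 : ℝ) ^ k) :=
        mul_le_mul_of_nonneg_right h1 (by positivity)
    _ = 2 * M * (1 / 2) ^ k := by
        have h5 : (4 : ℝ) ^ k = 2 ^ k * 2 ^ k := by
          rw [← mul_pow]
          norm_num
        rw [h5]
        push_cast
        rw [pow_succ, one_div_pow]
        field_simp

theorem t_IDS : S_IDS := by
  intro K _ _
  obtain ⟨M, hM0, hM⟩ := Ids.cnt K
  obtain ⟨r, hr⟩ : ∃ r : ℝ, r = 1 / √2 := ⟨_, rfl⟩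
  have hs2 : (1 : ℝ) < √2 := by
    rw [Real.lt_sqrt (by norm_num)]
    norm_num
  have hs20 : (0 : ℝ) < √2 := by linarith
  have hr0 : 0 < r := by rw [hr]; positivity
  have hr1 : r < 1 := by
    rw [hr, div_lt_one hs20]
    exact hs2
  have hrr : r * r = 1 / 2 := by
    rw [hr, div_mul_div_comm, one_mul, Real.mul_self_sqrt (by norm_num)]
  have hr2 : 0 < 1 - r := by linarith
  refine ⟨2 * M * √2 * (1 - r)⁻¹, by positivity, fun W T hW hT => ?_⟩
  have hW0 : 0 < W := by linarith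
  have hsW : 0 < √W := Real.sqrt_pos.2 hW0
  have hWr : W ^ (-(1 / 2) : ℝ) = (√W)⁻¹ := by
    rw [Real.rpow_neg hW0.le, Real.sqrt_eq_rpow]
  have hmaps : ∀ I ∈ T, Nat.log 2 (Ideal.absNorm I) ∈
      Finset.range (T.sup (fun I => Nat.log 2 (Ideal.absNorm I)) + 1) := by
    intro I hI
    rw [Finset.mem_range]
    have := Finset.le_sup (f := fun I => Nat.log 2 (Ideal.absNorm I)) hI
    omega
  rw [← Finset.sum_fiberwise_of_maps_to hmaps, hWr]
  have hblock : ∀ k : ℕ, ∑ I ∈ T with Nat.log 2 (Ideal.absNorm I) = k,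
      1 / (Ideal.absNorm I : ℝ) ^ 2 ≤ 2 * M * √2 * (√W)⁻¹ * r ^ k := by
    intro k
    by_cases hk : (T.filter fun I => Nat.log 2 (Ideal.absNorm I) = k).Nonempty
    · have hT' : ∀ I ∈ T.filter (fun I => Nat.log 2 (Ideal.absNorm I) = k),
          2 ^ k ≤ Ideal.absNorm I ∧ Ideal.absNorm I < 2 ^ (k + 1) := by
        intro I hI
        rw [Finset.mem_filter] at hI
        have h0 : Ideal.absNorm I ≠ 0 := by
          have h1 := (hT I hI.1).2
          intro h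
          rw [h] at h1
          norm_num at h1
          linarith
        rw [← hI.2]
        exact ⟨Nat.pow_log_le_self 2 h0, Nat.lt_pow_succ_log_self (by norm_num) _⟩
      refine (Ids.fib K M hM k _ hT').trans ?_
      obtain ⟨I, hI⟩ := hk
      have h1 : W < 2 ^ (k + 1) := by
        refine (hT I (Finset.mem_filter.1 hI).1).2.trans ?_
        exact_mod_cast (hT' I hI).2
      have h2 : √W ≤ √2 ^ (k + 1) := by
        have h3 : (√2 ^ (k + 1)) ^ 2 = (2 : ℝ) ^ (k + 1) := by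
          rw [← pow_mul, mul_comm, pow_mul, Real.sq_sqrt (by norm_num)]
        rw [Real.sqrt_le_left (by positivity), h3]
        exact h1.le
      have h3 : r ^ k ≤ √2 * (√W)⁻¹ := by
        rw [hr, one_div_pow, ← div_eq_mul_inv, div_le_div_iff₀ (by positivity) hsW, one_mul, ← pow_succ']
        exact h2
      have h4 : ((1 : ℝ) / 2) ^ k = r ^ k * r ^ k := by rw [← mul_pow, hrr]
      rw [h4]
      calc 2 * M * (r ^ k * r ^ k) ≤ 2 * M * ((√2 * (√W)⁻¹) * r ^ k) := by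
            gcongr
        _ = 2 * M * √2 * (√W)⁻¹ * r ^ k := by ring
    · rw [Finset.not_nonempty_iff_eq_empty.1 hk, Finset.sum_empty]
      positivity
  refine (Finset.sum_le_sum fun k _ => hblock k).trans ?_
  rw [← Finset.mul_sum]
  have h5 : ∑ k ∈ Finset.range (T.sup (fun I => Nat.log 2 (Ideal.absNorm I)) + 1), r ^ k ≤
      (1 - r)⁻¹ := by
    rw [← tsum_geometric_of_lt_one hr0.le hr1]
    exact (summable_geometric_of_lt_one hr0.le hr1).sum_le_tsum _ fun k _ => by positivity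
  calc 2 * M * √2 * (√W)⁻¹ * ∑ k ∈ Finset.range (T.sup (fun I => Nat.log 2 (Ideal.absNorm I)) + 1), r ^ k
      ≤ 2 * M * √2 * (√W)⁻¹ * (1 - r)⁻¹ := mul_le_mul_of_nonneg_left h5 (by positivity)
    _ = 2 * M * √2 * (1 - r)⁻¹ * (√W)⁻¹ := by ring

end Pool.Agent.NH52.LS
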