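import Pool.Agent.NH52.LS.Stm

/-! LS-11: a lower bound for the number of the integers in the box. -/

set_option autoImplicit false
set_option linter.unusedSectionVars false

namespace Pool.Agent.NH52.LS

open NumberField

namespace Low

theorem box1_finite (K : Type) [Field K] [NumberField K] (Y : ℝ) : (Box1 K Y).Finite := by
  have h := NumberField.Embeddings.finite_of_norm_le K ℂ Y
  refine Set.Finite.of_finite_image (f := fun a : 𝓞 K => (a : K)) (h.subset ?_)
    (RingOfIntegers.coe_injective.injOn)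
  rintro _ ⟨a, ha, rfl⟩
  exact ⟨RingOfIntegers.isIntegral_coe a, ha⟩

end Low

open Low in
theorem t_LOW : S_LOW := by
  intro K _ _
  classical
  set b := RingOfIntegers.basis K with hb
  have hn : Fintype.card (Module.Free.ChooseBasisIndex ℤ (𝓞 K)) = Module.finrank ℚ K := by
    rw [← RingOfIntegers.rank K, Module.finrank_eq_card_chooseBasisIndex]
  set n := Module.finrank ℚ K with hnn
  have hn0 : 0 < n := Module.finrank_pos
  set M : ℝ := 1 + ∑ i, ∑ σ : K →+* ℂ, ‖σ (b i : K)‖ with hM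
  have hMi : ∀ i, ∀ σ : K →+* ℂ, ‖σ (b i : K)‖ ≤ M := by
    intro i σ
    have h1 : ‖σ (b i : K)‖ ≤ ∑ σ : K →+* ℂ, ‖σ (b i : K)‖ :=
      Finset.single_le_sum (f := fun σ : K →+* ℂ => ‖σ (b i : K)‖) (fun _ _ => norm_nonneg _)
        (Finset.mem_univ σ)
    have h2 : ∑ σ : K →+* ℂ, ‖σ (b i : K)‖ ≤ ∑ i, ∑ σ : K →+* ℂ, ‖σ (b i : K)‖ :=
      Finset.single_le_sum (f := fun i => ∑ σ : K →+* ℂ, ‖σ (b i : K)‖)
        (fun _ _ => Finset.sum_nonneg fun _ _ => norm_nonneg _) (Finset.mem_univ i)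
    rw [hM]
    linarith
  have hM1 : 1 ≤ M := by
    rw [hM]
    have : 0 ≤ ∑ i, ∑ σ : K →+* ℂ, ‖σ (b i : K)‖ :=
      Finset.sum_nonneg fun _ _ => Finset.sum_nonneg fun _ _ => norm_nonneg _
    linarith
  have hn1 : (0 : ℝ) < n := by exact_mod_cast hn0
  have hnM : 0 < (n : ℝ) * M := mul_pos hn1 (by linarith)
  refine ⟨(n * M) ^ n, pow_pos hnM n, fun Y hY => ?_⟩
  set R : ℝ := Y / (n * M) with hR
  have hR0 : 0 ≤ R := div_nonneg (by linarith) hnM.le
  set k : ℕ := ⌊R⌋₊ with hk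
  have hkR : (k : ℝ) ≤ R := Nat.floor_le hR0
  have hRk : R < k + 1 := Nat.lt_floor_add_one R
  set F : Finset (Module.Free.ChooseBasisIndex ℤ (𝓞 K) → ℤ) :=
    Fintype.piFinset fun _ => Finset.Icc (-(k : ℤ)) k with hF
  have hFc : F.card = (2 * k + 1) ^ n := by
    rw [hF, Fintype.card_piFinset]
    simp only [Int.card_Icc, Finset.prod_const, Finset.card_univ, hn]
    congr 1
    omega
  have hinj : Set.InjOn (fun m : Module.Free.ChooseBasisIndex ℤ (𝓞 K) → ℤ => b.equivFun.symm m)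
      (F : Set _) := fun x _ y _ h => b.equivFun.symm.injective h
  have hsub : (fun m : Module.Free.ChooseBasisIndex ℤ (𝓞 K) → ℤ => b.equivFun.symm m) '' (F : Set _) ⊆
      Box1 K Y := by
    rintro _ ⟨m, hm, rfl⟩ σ
    show ‖σ ((b.equivFun.symm m : 𝓞 K) : K)‖ ≤ Y
    rw [Module.Basis.equivFun_symm_apply]
    have hm' : ∀ i, |(m i : ℝ)| ≤ k := by
      intro i
      have := (Fintype.mem_piFinset.1 (Finset.mem_coe.1 hm)) i
      rw [Finset.mem_Icc] at this
      rw [abs_le]
      constructor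
      · exact_mod_cast this.1
      · exact_mod_cast this.2
    have h1 : σ ((∑ i, m i • b i : 𝓞 K) : K) = ∑ i, (m i : ℂ) * σ (b i : K) := by
      change σ (algebraMap (𝓞 K) K (∑ i, m i • b i)) =
        ∑ i, (m i : ℂ) * σ (algebraMap (𝓞 K) K (b i))
      rw [map_sum, map_sum]
      refine Finset.sum_congr rfl fun i _ => ?_
      rw [zsmul_eq_mul, map_mul, map_mul, map_intCast, map_intCast]
    rw [h1]
    calc ‖∑ i, (m i : ℂ) * σ (b i : K)‖ ≤ ∑ i, ‖(m i : ℂ) * σ (b i : K)‖ := norm_sum_le _ _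
      _ ≤ ∑ _i : Module.Free.ChooseBasisIndex ℤ (𝓞 K), R * M := by
          refine Finset.sum_le_sum fun i _ => ?_
          rw [norm_mul, Complex.norm_intCast]
          exact mul_le_mul ((hm' i).trans hkR) (hMi i σ) (norm_nonneg _) hR0
      _ = n * (R * M) := by
          rw [Finset.sum_const, Finset.card_univ, hn, nsmul_eq_mul]
      _ = Y := by
          rw [hR]
          field_simp
  have hcard : F.card ≤ (Box1 K Y).ncard := by
    rw [← Set.ncard_coe_finset, ← hinj.ncard_image]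
    exact Set.ncard_le_ncard hsub (box1_finite K Y)
  have h1 : R ^ n ≤ ((Box1 K Y).ncard : ℝ) := by
    calc R ^ n ≤ ((2 * k + 1 : ℕ) : ℝ) ^ n := by
          refine pow_le_pow_left₀ hR0 ?_ n
          push_cast
          have : (0 : ℝ) ≤ k := Nat.cast_nonneg k
          linarith
      _ = ((F.card : ℕ) : ℝ) := by rw [hFc]; push_cast; rfl
      _ ≤ _ := by exact_mod_cast hcard
  have h2 : Y ^ n = (n * M) ^ n * R ^ n := by
    rw [← mul_pow, hR]
    congr 1
    field_simp
  rw [h2]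
  exact mul_le_mul_of_nonneg_left h1 (pow_pos hnM n).le

end Pool.Agent.NH52.LS
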