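import Pool.Agent.NH52.LS.Stm2

/-!
# Many simple poles: the lower bound for all curves of invariant `j`
-/

set_option autoImplicit false
set_option linter.unusedSectionVars false

namespace Pool.Agent.NH52.LS

open NumberField IsDedekindDomain Pool.Agent.H691R3 Pool.Agent.W223.AK Pool.Agent.Y733.LS Pool.Agent.Y733.UD
  Pool.Agent.TH942 Pool.Agent.TH910.LS

namespace LspAux

theorem sp_zero {K : Type} [Field K] [NumberField K] {j : K} (h : ∀ v : Pr K, fv v j ≤ 1) : sp j = 0 := by
  unfold sp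
  refine finsum_eq_zero_of_forall_eq_zero fun v => ?_
  rw [if_neg]
  rintro ⟨_, _, h3⟩
  have h4 := h v
  rw [h3] at h4
  exact absurd (Nv_one_lt v) (not_lt.2 h4)

end LspAux

open LspAux in
theorem t_LSP (h : S_TWO) : S_LSP := by
  obtain ⟨C, hC, h⟩ := h
  have hC3 : 0 ≤ C3 := by
    unfold C3
    have h1 : 0 ≤ Real.log 6912 := Real.log_nonneg (by norm_num)
    have h2 : 0 ≤ Real.log 250 := Real.log_nonneg (by norm_num)
    have h3 : 0 ≤ Real.log ((4 * 6912 * 46656 : ℕ) : ℝ) := Real.log_natCast_nonneg _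
    positivity
  have hC4 : 0 ≤ C4 := add_nonneg (Real.log_nonneg (by norm_num)) (Real.log_nonneg (by norm_num))
  refine ⟨1 / 200, 1200 * (C3 + 1 + C4) + 10 + 3 * C, by norm_num, by positivity, ?_⟩
  intro K _ _ j hsp hht
  have hn : (0 : ℝ) < Module.finrank ℚ K := by exact_mod_cast Module.finrank_pos
  have hpos : 0 < ht j := by
    refine lt_of_lt_of_le ?_ hht
    have : 0 < 1200 * (C3 + 1 + C4) + 10 + 3 * C := by positivity
    positivity
  have hne : ∀ i : K, (∀ v : Pr K, fv v i ≤ 1) → j ≠ i := by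
    rintro i hi rfl
    rw [sp_zero hi] at hsp
    linarith
  have h0 : j ≠ 0 := hne 0 fun v => by simp
  have h1 : j ≠ 1728 := hne 1728 fun v => Na.ofNat (fv_Na v) 1728
  have h2 : ¬ Two j := by
    intro h2
    have h3 := h K j h2
    have h4 : (0 : ℝ) ≤ Module.finrank ℚ K * C := by positivity
    have h5 : 0 ≤ (Module.finrank ℚ K : ℝ) * (1200 * (C3 + 1 + C4)) := by positivity
    nlinarith
  have := lsp_of (K := K) (j := j) h0 h1 h2 (η := 1 / 4) (by norm_num) (by norm_num) (by linarith) (by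
    refine le_trans ?_ hht
    apply mul_le_mul_of_nonneg_left _ hn.le
    have e : 600 * (C3 + 1 + C4) / (1 - 2 * (1 / 4 : ℝ)) = 1200 * (C3 + 1 + C4) := by ring
    rw [e]
    linarith)
  have e : ((1 : ℝ) - 2 * (1 / 4)) / 100 = 1 / 200 := by norm_num
  rwa [e] at this

end Pool.Agent.NH52.LS
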