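import Mathlib
import Pool.Agent.NH52.LS.Stm

/-!
# Project LS: the norm of `t - j`
-/

set_option autoImplicit false

namespace Pool.Agent.NH52.LS

open NumberField IsDedekindDomain Polynomial

namespace Nrm

theorem charpoly_lmul {K : Type} [Field K] {L : Type} [Field L] [Algebra K L]
    [FiniteDimensional K L] (j : L) (hj : IntermediateField.adjoin K {j} = ⊤) :
    (Algebra.lmul K L j).charpoly = minpoly K j := by
  have hint : IsIntegral K j := Algebra.IsIntegral.isIntegral j
  have hdeg : (minpoly K j).natDegree = Module.finrank K L := by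
    rw [← IntermediateField.adjoin.finrank hint, hj, IntermediateField.finrank_top']
  refine Polynomial.eq_of_monic_of_dvd_of_natDegree_le (minpoly.monic hint)
    (LinearMap.charpoly_monic _) ?_ ?_
  · apply minpoly.dvd
    have h1 : aeval (Algebra.lmul K L j) (Algebra.lmul K L j).charpoly = 0 :=
      LinearMap.aeval_self_charpoly _
    rw [Polynomial.aeval_algHom_apply] at h1
    have h2 := congrArg (fun g => g 1) h1
    simpa using h2
  · rw [LinearMap.charpoly_natDegree, hdeg]

theorem norm_sub {K : Type} [Field K] {L : Type} [Field L] [Algebra K L]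
    [FiniteDimensional K L] (j : L) (hj : IntermediateField.adjoin K {j} = ⊤) (t : K) :
    Algebra.norm K (algebraMap K L t - j) = (minpoly K j).eval t := by
  rw [← charpoly_lmul j hj, LinearMap.eval_charpoly, Algebra.norm_apply, map_sub]
  congr 1
  rw [AlgHom.commutes]

end Nrm

theorem t_NRM : S_NRM := by
  intro K _ _ L _ _ _ d f j hj
  obtain ⟨hf0, hroot, hadj, hfin⟩ := hj
  have : FiniteDimensional K L := FiniteDimensional.right ℚ K L
  have hint : IsIntegral K j := Algebra.IsIntegral.isIntegral j
  have hdeg : (minpoly K j).natDegree = d := by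
    rw [← IntermediateField.adjoin.finrank hint, hadj, IntermediateField.finrank_top', hfin]
  set F : K[X] := ∑ i : Fin (d + 1), C ((f i : 𝓞 K) : K) * X ^ (i : ℕ) with hF
  have hcoeff : ∀ i : Fin (d + 1), F.coeff (i : ℕ) = ((f i : 𝓞 K) : K) := by
    intro i
    rw [hF, finsetSum_coeff]
    rw [Finset.sum_eq_single i]
    · rw [coeff_C_mul, coeff_X_pow, if_pos rfl, mul_one]
    · intro l _ hl
      rw [coeff_C_mul, coeff_X_pow, if_neg, mul_zero]
      intro h
      exact hl (Fin.ext h.symm)
    · intro h
      exact absurd (Finset.mem_univ i) h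
  have hdegF : F.natDegree ≤ d := by
    rw [hF]
    refine natDegree_sum_le_of_forall_le _ _ ?_
    intro i _
    exact (natDegree_C_mul_X_pow_le _ _).trans (Nat.lt_succ_iff.mp i.2)
  have hFne : F ≠ 0 := by
    intro h
    apply hf0
    funext i
    have := hcoeff i
    rw [h, coeff_zero] at this
    exact_mod_cast this.symm
  have heval : ∀ t : K, F.eval t = ∑ i, ((f i : 𝓞 K) : K) * t ^ (i : ℕ) := by
    intro t
    rw [hF, eval_finsetSum]
    refine Finset.sum_congr rfl ?_
    intro i _
    rw [eval_mul, eval_C, eval_pow, eval_X]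
  have haeval : aeval j F = 0 := by
    rw [hF, map_sum]
    rw [← hroot]
    refine Finset.sum_congr rfl ?_
    intro i _
    rw [map_mul, aeval_C, map_pow, aeval_X]
  have hdvd : minpoly K j ∣ F := minpoly.dvd K j haeval
  have hnat : F.natDegree = d := by
    refine le_antisymm hdegF ?_
    rw [← hdeg]
    exact natDegree_le_of_dvd hdvd hFne
  have hlead : F.leadingCoeff = ((f (Fin.last d) : 𝓞 K) : K) := by
    rw [leadingCoeff, hnat]
    exact hcoeff (Fin.last d)
  have hne : f (Fin.last d) ≠ 0 := by
    intro h
    rw [h] at hlead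
    exact hFne (leadingCoeff_eq_zero.mp (by rw [hlead]; simp))
  refine ⟨hne, ?_⟩
  intro t
  have heq := eq_mul_leadingCoeff_of_monic_of_dvd_of_natDegree_le (minpoly.monic hint) hdvd
    (by rw [hnat, hdeg])
  rw [Nrm.norm_sub j hadj t, ← heval t, ← hlead]
  conv_rhs => rw [heq]
  rw [eval_mul, eval_C, mul_comm]

end Pool.Agent.NH52.LS
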