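import Pool.Agent.NH52.LS.Idb

/-! The number of the integers of the box of small norm. -/

set_option autoImplicit false
set_option linter.unusedSectionVars false

namespace Pool.Agent.NH52.LS

open NumberField Idb

theorem t_SMN : S_SMN := by
  intro K _ _
  classical
  refine ⟨Fintype.card (InfinitePlace K) * 6 ^ Module.finrank ℚ K, ?_, fun Y θ hY hθ hθ1 hYθ => ?_⟩
  · have : 0 < Fintype.card (InfinitePlace K) := Fintype.card_pos
    positivity
  have hY0 : 0 < Y := by linarith
  set A : InfinitePlace K → Set (𝓞 K) := fun w0 => {a ∈ Box1 K Y | w0 (a : K) ≤ Y * θ} with hA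
  have hcount : ∀ w0, (A w0).Finite ∧
      ((A w0).ncard : ℝ) ≤ 6 ^ Module.finrank ℚ K * Y ^ Module.finrank ℚ K * θ := by
    intro w0
    have h1 := count (K := K) (s := 1) one_pos (fun w => if w = w0 then Y * θ else Y)
      (fun w => by split_ifs <;> assumption) (A w0)
      (fun a ha w => by
        split_ifs with hw
        · rw [hw]; exact ha.2
        · exact le_of_box ha.1 w)
      (fun a _ b _ h => eq_of_near (I := ⊤) one_pos (by rw [one_pow, Ideal.absNorm_top, Nat.cast_one])
        Submodule.mem_top Submodule.mem_top h)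
    refine ⟨h1.1, h1.2.trans ?_⟩
    have h2 : ∀ w : InfinitePlace K, (6 * (if w = w0 then Y * θ else Y) / 1) ^ w.mult =
        6 ^ w.mult * Y ^ w.mult * (if w = w0 then θ ^ w.mult else 1) := by
      intro w
      by_cases hw : w = w0
      · rw [if_pos hw, if_pos hw, div_one, mul_pow, mul_pow, mul_assoc]
      · rw [if_neg hw, if_neg hw, div_one, mul_pow, mul_one]
    rw [Finset.prod_congr rfl fun w _ => h2 w, Finset.prod_mul_distrib, Finset.prod_mul_distrib,
      prod_mult, prod_mult, Finset.prod_ite_eq' Finset.univ w0, if_pos (Finset.mem_univ _)]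
    apply mul_le_mul_of_nonneg_left _ (by positivity)
    calc θ ^ w0.mult ≤ θ ^ 1 := pow_le_pow_of_le_one hθ.le hθ1 w0.mult_pos
      _ = θ := pow_one _
  have hsub : {a ∈ Box1 K Y | |(Algebra.norm ℚ (a : K) : ℝ)| ≤
      (Y * θ) ^ Module.finrank ℚ K} ⊆ ⋃ w0 ∈ (Finset.univ : Finset (InfinitePlace K)), A w0 := by
    rintro a ⟨ha, hn⟩
    by_contra hc
    have h1 : ∀ w : InfinitePlace K, Y * θ < w (a : K) := by
      intro w
      by_contra hw
      apply hc
      rw [Set.mem_iUnion₂]
      exact ⟨w, Finset.mem_univ _, ha, not_lt.1 hw⟩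
    have h2 : ∏ w : InfinitePlace K, (Y * θ) ^ w.mult <
        ∏ w : InfinitePlace K, w (a : K) ^ w.mult := by
      apply Finset.prod_lt_prod_of_nonempty
      · intro w _; positivity
      · intro w _
        exact pow_lt_pow_left₀ (h1 w) (by positivity) w.mult_ne_zero
      · exact Finset.univ_nonempty
    rw [prod_mult, InfinitePlace.prod_eq_abs_norm, Rat.cast_abs] at h2
    linarith
  have hfin : (⋃ w0 ∈ (Finset.univ : Finset (InfinitePlace K)), A w0).Finite :=
    Set.Finite.biUnion (Finset.finite_toSet _) fun w _ => (hcount w).1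
  have h3 := Set.ncard_le_ncard hsub hfin
  have h4 := Finset.set_ncard_biUnion_le (Finset.univ : Finset (InfinitePlace K)) A
  have h5 : ((∑ w : InfinitePlace K, (A w).ncard : ℕ) : ℝ) ≤
      ∑ _w : InfinitePlace K, 6 ^ Module.finrank ℚ K * Y ^ Module.finrank ℚ K * θ := by
    push_cast
    exact Finset.sum_le_sum fun w _ => (hcount w).2
  rw [Finset.sum_const, Finset.card_univ, nsmul_eq_mul] at h5
  refine ((Nat.cast_le.2 (h3.trans h4)).trans h5).trans (le_of_eq ?_)
  ring

end Pool.Agent.NH52.LS
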