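import Pool.Agent.NH52.LS.Stm

/-!
# LS-8: the lower bound for the simple poles
-/

set_option autoImplicit false
set_option linter.unusedSectionVars false

namespace Pool.Agent.NH52.LS

open NumberField IsDedekindDomain

namespace Spb

open UniqueFactorizationMonoid

variable {K : Type} [Field K] [NumberField K]

open Classical in
theorem fact (A : Ideal (𝓞 K)) (hA : A ≠ ⊥) :
    ∏ P ∈ (normalizedFactors A).toFinset, P ^ (normalizedFactors A).count P = A := by
  rw [← Finset.prod_multiset_count]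
  exact Ideal.prod_normalizedFactors_eq_self hA

theorem norm_pos {P : Ideal (𝓞 K)} (hP : P ≠ ⊥) : 1 ≤ Ideal.absNorm P :=
  Nat.one_le_iff_ne_zero.mpr (Ideal.absNorm_eq_zero_iff.not.mpr hP)

theorem log_nonneg {P : Ideal (𝓞 K)} (hP : P ≠ ⊥) : 0 ≤ Real.log (Ideal.absNorm P) :=
  Real.log_nonneg (by exact_mod_cast norm_pos hP)

/-- the logarithm of the norm of a product -/
theorem log_prod {s : Finset (Ideal (𝓞 K))} (hs : ∀ P ∈ s, P ≠ ⊥) (e : Ideal (𝓞 K) → ℕ) :
    Real.log (Ideal.absNorm (∏ P ∈ s, P ^ e P)) = ∑ P ∈ s, (e P : ℝ) * Real.log (Ideal.absNorm P) := by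
  rw [map_prod, Nat.cast_prod, Real.log_prod]
  · refine Finset.sum_congr rfl (fun P _ => ?_)
    rw [map_pow, Nat.cast_pow, Real.log_pow]
  · intro P hP
    rw [map_pow, Nat.cast_pow]
    have := norm_pos (hs P hP)
    exact pow_ne_zero _ (by exact_mod_cast (by omega : Ideal.absNorm P ≠ 0))

end Spb

open Spb UniqueFactorizationMonoid

open Classical in
theorem t_SPB (h1 : S_NRM) (h2 : S_SPL) : S_SPB := by
  intro K _ _ d
  -- the small primes
  have h6 : (Ideal.span {(6 : 𝓞 K)}) ≠ ⊥ := by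
    rw [Ne, Ideal.span_singleton_eq_bot]
    norm_num
  have hDfin : {P : Ideal (𝓞 K) | P ≠ ⊥ ∧
      Ideal.absNorm P ≤ max d (Ideal.absNorm (Ideal.span {(6 : 𝓞 K)}))}.Finite :=
    (Ideal.finite_setOf_absNorm_le (S := 𝓞 K)
      (max d (Ideal.absNorm (Ideal.span {(6 : 𝓞 K)})))).subset (fun J hJ => hJ.2)
  set D : Finset (Ideal (𝓞 K)) := hDfin.toFinset with hD
  have hDmem : ∀ J, J ∈ D ↔ (J ≠ ⊥ ∧ Ideal.absNorm J ≤ max d (Ideal.absNorm (Ideal.span {(6 : 𝓞 K)}))) := by
    intro J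
    rw [hD, Set.Finite.mem_toFinset]
    rfl
  set c0 : ℝ := ∑ P ∈ D, Real.log (Ideal.absNorm P) with hc0
  have hc0' : 0 ≤ c0 := Finset.sum_nonneg (fun P hP => log_nonneg ((hDmem P).mp hP).1)
  refine ⟨c0 + 4, by linarith, ?_⟩
  intro L _ _ _ f j W hroot hW hNoSq hSmC
  have hlast := (h1 K L d f j hroot).1
  set A : Ideal (𝓞 K) := lead f with hAdef
  have hA : A ≠ ⊥ := by
    rw [hAdef, lead, Ne, Ideal.span_singleton_eq_bot]
    exact hlast
  have hlogW : 0 ≤ Real.log W := Real.log_nonneg hW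
  set F : Finset (Ideal (𝓞 K)) := (normalizedFactors A).toFinset with hF
  set a : Ideal (𝓞 K) → ℕ := fun P => (normalizedFactors A).count P with ha
  have hprod : ∏ P ∈ F, P ^ a P = A := fact A hA
  have hprime : ∀ P ∈ F, Prime P := fun P hP =>
    prime_of_normalized_factor P (Multiset.mem_toFinset.mp hP)
  have hne : ∀ P ∈ F, P ≠ ⊥ := fun P hP => (hprime P hP).ne_zero
  have hisP : ∀ P ∈ F, P.IsPrime := fun P hP => Ideal.isPrime_of_prime (hprime P hP)
  have hmax : ∀ P ∈ F, P.IsMaximal := fun P hP => (hisP P hP).isMaximal (hne P hP)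
  have ha1 : ∀ P ∈ F, 1 ≤ a P := fun P hP => Multiset.one_le_count_iff_mem.mpr (Multiset.mem_toFinset.mp hP)
  have hlogA : Real.log (Ideal.absNorm A) = ∑ P ∈ F, (a P : ℝ) * Real.log (Ideal.absNorm P) := by
    rw [← log_prod hne a, hprod]
  -- T1
  set T1 := F.filter (fun P => 2 ≤ a P) with hT1
  have hT1F : T1 ⊆ F := Finset.filter_subset _ _
  have hJ1 : (∏ P ∈ T1, P ^ (a P / 2)) ^ 2 ∣ A := by
    rw [← Finset.prod_pow]
    have e1 : ∏ P ∈ T1, (P ^ (a P / 2)) ^ 2 ∣ ∏ P ∈ T1, P ^ a P := by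
      refine Finset.prod_dvd_prod_of_dvd _ _ (fun P _ => ?_)
      rw [← pow_mul]
      exact pow_dvd_pow _ (by omega)
    have e2 := Finset.prod_dvd_prod_of_subset T1 F (fun P => P ^ a P) hT1F
    rw [hprod] at e2
    exact e1.trans e2
  have hs1 : ∑ P ∈ T1, (a P : ℝ) * Real.log (Ideal.absNorm P) ≤ 3 * Real.log W := by
    have e1 := hNoSq _ hJ1
    have e2 : Real.log (Ideal.absNorm (∏ P ∈ T1, P ^ (a P / 2))) ≤ Real.log W := by
      refine Real.log_le_log ?_ e1
      have : (∏ P ∈ T1, P ^ (a P / 2)) ≠ ⊥ := by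
        have := Finset.prod_ne_zero_iff.mpr (fun P (hP : P ∈ T1) => pow_ne_zero (a P / 2) (hne P (hT1F hP)))
        exact this
      exact_mod_cast norm_pos this
    rw [log_prod (fun P hP => hne P (hT1F hP)) (fun P => a P / 2)] at e2
    have e3 : ∑ P ∈ T1, (a P : ℝ) * Real.log (Ideal.absNorm P) ≤
        3 * ∑ P ∈ T1, ((a P / 2 : ℕ) : ℝ) * Real.log (Ideal.absNorm P) := by
      rw [Finset.mul_sum]
      refine Finset.sum_le_sum (fun P hP => ?_)
      rw [← mul_assoc]
      refine mul_le_mul_of_nonneg_right ?_ (log_nonneg (hne P (hT1F hP)))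
      have h7 : 2 ≤ a P := (Finset.mem_filter.mp hP).2
      have : a P ≤ 3 * (a P / 2) := by omega
      exact_mod_cast this
    linarith
  -- the others
  set R := F.filter (fun P => ¬ 2 ≤ a P) with hR
  have hRF : R ⊆ F := Finset.filter_subset _ _
  have haR : ∀ P ∈ R, a P = 1 := by
    intro P hP
    have h7 := (Finset.mem_filter.mp hP).2
    have h8 := ha1 P (hRF hP)
    omega
  have hsplit : ∑ P ∈ F, (a P : ℝ) * Real.log (Ideal.absNorm P) =
      ∑ P ∈ T1, (a P : ℝ) * Real.log (Ideal.absNorm P) + ∑ P ∈ R, Real.log (Ideal.absNorm P) := by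
    rw [← Finset.sum_filter_add_sum_filter_not F (fun P => 2 ≤ a P)]
    congr 1
    refine Finset.sum_congr rfl (fun P hP => ?_)
    rw [haR P hP]
    norm_num
  -- T2
  set T2 := R.filter (fun P => ∀ i, f i ∈ P) with hT2
  have hT2F : T2 ⊆ F := (Finset.filter_subset _ _).trans hRF
  have hs2 : ∑ P ∈ T2, Real.log (Ideal.absNorm P) ≤ Real.log W := by
    have e1 : ∀ i, f i ∈ ∏ P ∈ T2, P := by
      intro i
      rw [← Ideal.dvd_span_singleton]
      refine Finset.prod_dvd_of_coprime ?_ ?_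
      · intro P hP Q hQ hPQ
        have h7 := (hmax P (hT2F hP)).coprime_of_ne (hmax Q (hT2F hQ)) hPQ
        exact Ideal.isCoprime_iff_sup_eq.mpr h7
      · intro P hP
        rw [Ideal.dvd_span_singleton]
        exact (Finset.mem_filter.mp hP).2 i
    have e2 := hSmC _ e1
    have e3 : Real.log (Ideal.absNorm (∏ P ∈ T2, P ^ 1)) ≤ Real.log W := by
      simp only [pow_one]
      refine Real.log_le_log ?_ e2
      have : (∏ P ∈ T2, P) ≠ ⊥ := Finset.prod_ne_zero_iff.mpr (fun P (hP : P ∈ T2) => hne P (hT2F hP))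
      exact_mod_cast norm_pos this
    rw [log_prod (fun P hP => hne P (hT2F hP)) (fun _ => 1)] at e3
    simpa using e3
  -- T3
  set R2 := R.filter (fun P => ¬ ∀ i, f i ∈ P) with hR2
  have hR2R : R2 ⊆ R := Finset.filter_subset _ _
  have hR2F : R2 ⊆ F := hR2R.trans hRF
  set T3 := R2.filter (fun P => Ideal.absNorm P ≤ d ∨ (6 : 𝓞 K) ∈ P) with hT3
  set T4 := R2.filter (fun P => ¬ (Ideal.absNorm P ≤ d ∨ (6 : 𝓞 K) ∈ P)) with hT4
  have hs3 : ∑ P ∈ T3, Real.log (Ideal.absNorm P) ≤ c0 := by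
    refine Finset.sum_le_sum_of_subset_of_nonneg ?_ (fun P hP _ => log_nonneg ((hDmem P).mp hP).1)
    intro P hP
    rw [hT3, Finset.mem_filter] at hP
    rw [hDmem]
    refine ⟨hne P (hR2F hP.1), ?_⟩
    rcases hP.2 with h | h
    · exact le_max_of_le_left h
    · refine le_max_of_le_right ?_
      rw [← Ideal.dvd_span_singleton] at h
      exact Nat.le_of_dvd (norm_pos h6) (Ideal.absNorm_dvd_absNorm_of_le (Ideal.le_of_dvd h))
  have hsum : Real.log (Ideal.absNorm A) ≤ 3 * Real.log W + (Real.log W + (c0 +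
      ∑ P ∈ T4, Real.log (Ideal.absNorm P))) := by
    rw [hlogA, hsplit, ← Finset.sum_filter_add_sum_filter_not R (fun P => ∀ i, f i ∈ P),
      ← Finset.sum_filter_add_sum_filter_not (R.filter (fun P => ¬ ∀ i, f i ∈ P))
        (fun P => Ideal.absNorm P ≤ d ∨ (6 : 𝓞 K) ∈ P)]
    exact add_le_add hs1 (add_le_add hs2 (add_le_add hs3 (le_refl _)))
  -- the simple poles
  have hex : ∀ P : T4, ∃ w : HeightOneSpectrum (𝓞 L),
      w.asIdeal.comap (algebraMap (𝓞 K) (𝓞 L)) = (P : Ideal (𝓞 K)) ∧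
      Ideal.absNorm w.asIdeal = Ideal.absNorm (P : Ideal (𝓞 K)) ∧ w.asIdeal ∣ den j ∧
        ¬ w.asIdeal ^ 2 ∣ den j := by
    rintro ⟨P, hP⟩
    have hPm := hP
    rw [hT4, Finset.mem_filter, not_or, not_le] at hP
    have hPF := hR2F hP.1
    have hPR := hR2R hP.1
    have hex2 : ∃ i, f i ∉ P := by
      have := (Finset.mem_filter.mp hP.1).2
      push Not at this
      exact this
    have h7 := h2 K L d f j hroot ⟨P, hisP P hPF, hne P hPF⟩ hP.2.1 (by
        change P ∣ A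
        rw [← hprod]
        exact (dvd_pow_self P (by have := ha1 P hPF; omega)).trans (Finset.dvd_prod_of_mem _ hPF)) (by
        change ¬ P ^ 2 ∣ A
        intro hcon
        have h8 := emultiplicity_eq_count_normalizedFactors (hprime P hPF).irreducible hA
        rw [normalize_eq] at h8
        have h9 := le_emultiplicity_of_pow_dvd hcon
        rw [h8] at h9
        have h10 : 2 ≤ (normalizedFactors A).count P := by exact_mod_cast h9
        have h11 := haR P hPR
        simp only [ha] at h11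
        omega) hex2
    exact h7
  choose w hw using hex
  refine ⟨Finset.univ.image w, ?_, ?_⟩
  · intro v hv
    rw [Finset.mem_image] at hv
    obtain ⟨P, _, rfl⟩ := hv
    refine ⟨?_, (hw P).2.2.1, (hw P).2.2.2⟩
    intro hcon
    have h7 : (6 : 𝓞 K) ∈ (w P).asIdeal.comap (algebraMap (𝓞 K) (𝓞 L)) := by
      rw [Ideal.mem_comap, map_ofNat]
      exact hcon
    rw [(hw P).1] at h7
    have h8 : (P : Ideal (𝓞 K)) ∈ R2.filter (fun P => ¬ (Ideal.absNorm P ≤ d ∨ (6 : 𝓞 K) ∈ P)) := P.2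
    rw [Finset.mem_filter, not_or] at h8
    exact h8.2.2 h7
  · rw [Finset.sum_image (by
      intro P _ Q _ hPQ
      apply Subtype.ext
      rw [← (hw P).1, ← (hw Q).1, hPQ])]
    have e1 : ∑ P : T4, Real.log (Ideal.absNorm (w P).asIdeal) = ∑ P ∈ T4, Real.log (Ideal.absNorm P) := by
      rw [← Finset.sum_coe_sort T4 (fun P => Real.log (Ideal.absNorm P))]
      refine Finset.sum_congr rfl (fun P _ => ?_)
      rw [(hw P).2.1]
    rw [e1]
    have e2 : 0 ≤ c0 * Real.log W := mul_nonneg hc0' hlogW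
    nlinarith

end Pool.Agent.NH52.LS
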