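import Pool.Agent.NH52.LS.Stm

/-!
# LS-4: a prime which divides the leading coefficient exactly once gives a simple pole
-/

set_option autoImplicit false
set_option linter.unusedSectionVars false

namespace Pool.Agent.NH52.LS

open NumberField IsDedekindDomain Polynomial

namespace SPL

variable {K : Type} [Field K] [NumberField K] {L : Type} [Field L] [NumberField L] [Algebra K L]
  {d : ℕ}

/-- a polynomial with many zeros modulo `v` -/
lemma all_mem (v : HeightOneSpectrum (𝓞 K)) (hd : d < Ideal.absNorm v.asIdeal)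
    (f : Fin (d + 1) → 𝓞 K) (h : ∀ t : 𝓞 K, ∑ i, f i * t ^ (i : ℕ) ∈ v.asIdeal) :
    ∀ i, f i ∈ v.asIdeal := by
  classical
  have hm : v.asIdeal.IsMaximal := v.isMaximal
  have hp : v.asIdeal.IsPrime := v.isPrime
  have hN : Ideal.absNorm v.asIdeal = Nat.card (𝓞 K ⧸ v.asIdeal) := by
    rw [Ideal.absNorm_apply, Submodule.cardQuot_apply]
  have hfin : Finite (𝓞 K ⧸ v.asIdeal) := by
    refine Nat.finite_of_card_ne_zero ?_
    rw [← hN]
    omega
  have hft := Fintype.ofFinite (𝓞 K ⧸ v.asIdeal)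
  obtain ⟨q, hq⟩ : ∃ q, q = Ideal.Quotient.mk v.asIdeal := ⟨_, rfl⟩
  obtain ⟨P, hP⟩ : ∃ P : (𝓞 K ⧸ v.asIdeal)[X], P = ∑ i : Fin (d + 1), C (q (f i)) * X ^ (i : ℕ) :=
    ⟨_, rfl⟩
  have hdeg : P.natDegree ≤ d := by
    rw [hP]
    exact natDegree_sum_le_of_forall_le _ _ fun i _ =>
      (natDegree_C_mul_X_pow_le _ _).trans (Nat.lt_succ_iff.1 i.2)
  have hP0 : P = 0 := by
    apply eq_zero_of_natDegree_lt_card_of_eval_eq_zero' P Finset.univ
    · intro x _
      obtain ⟨t, rfl⟩ := Ideal.Quotient.mk_surjective x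
      have h1 : P.eval (Ideal.Quotient.mk v.asIdeal t) = q (∑ i, f i * t ^ (i : ℕ)) := by
        rw [hP, eval_finsetSum, map_sum, hq]
        refine Finset.sum_congr rfl fun i _ => ?_
        rw [eval_mul, eval_C, eval_pow, eval_X, map_mul, map_pow]
      rw [h1, hq]
      exact Ideal.Quotient.eq_zero_iff_mem.2 (h t)
    · rw [Finset.card_univ, ← Nat.card_eq_fintype_card, ← hN]
      exact lt_of_le_of_lt hdeg hd
  intro i
  have hc : P.coeff i = q (f i) := by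
    rw [hP, finsetSum_coeff, Finset.sum_eq_single i]
    · rw [coeff_C_mul, coeff_X_pow, if_pos rfl, mul_one]
    · intro b _ hb
      rw [coeff_C_mul, coeff_X_pow, if_neg, mul_zero]
      exact fun h => hb (Fin.ext h.symm)
    · intro h
      exact absurd (Finset.mem_univ i) h
  rw [hP0, coeff_zero, hq] at hc
  exact Ideal.Quotient.eq_zero_iff_mem.1 hc.symm

lemma comap_le (h1 : S_NRM) {f : Fin (d + 1) → 𝓞 K} {j : L} (hf : IsRoot f j)
    (v : HeightOneSpectrum (𝓞 K)) (hd : d < Ideal.absNorm v.asIdeal) (hv : v.asIdeal ∣ lead f)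
    (hi : ∃ i, f i ∉ v.asIdeal) :
    (den j).comap (algebraMap (𝓞 K) (𝓞 L)) ≤ v.asIdeal := by
  intro s hs
  by_contra hsv
  obtain ⟨y, hy⟩ : ∃ y : 𝓞 L, ((algebraMap (𝓞 K) (𝓞 L) s : 𝓞 L) : L) * j = (y : L) := hs
  obtain ⟨i, hi⟩ := hi
  apply hi
  refine all_mem v hd f ?_ i
  intro t
  have hlead : f (Fin.last d) ∈ v.asIdeal := by
    rw [← Ideal.dvd_span_singleton]
    exact hv
  obtain ⟨z, hz'⟩ : ∃ z : 𝓞 L, z = algebraMap (𝓞 K) (𝓞 L) (s * t) - y := ⟨_, rfl⟩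
  have hz : (z : L) = algebraMap K L (s : K) * (algebraMap K L (t : K) - j) := by
    have e1 : ((algebraMap (𝓞 K) (𝓞 L) s : 𝓞 L) : L) = algebraMap K L (s : K) := rfl
    have e2 : ((algebraMap (𝓞 K) (𝓞 L) t : 𝓞 L) : L) = algebraMap K L (t : K) := rfl
    rw [hz']
    change algebraMap (𝓞 L) L (algebraMap (𝓞 K) (𝓞 L) (s * t) - y) = _
    change ((algebraMap (𝓞 K) (𝓞 L) s : 𝓞 L) : L) * j = algebraMap (𝓞 L) L y at hy
    rw [map_sub, ← hy, map_mul, map_mul]
    change algebraMap K L (s : K) * algebraMap K L (t : K) - algebraMap K L (s : K) * j = _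
    ring
  have hN : ((RingOfIntegers.norm K z : 𝓞 K) : K) =
      (s : K) ^ d * Algebra.norm K (algebraMap K L (t : K) - j) := by
    rw [RingOfIntegers.coe_norm, hz, map_mul, Algebra.norm_algebraMap, hf.2.2.2]
  have hO : f (Fin.last d) * RingOfIntegers.norm K z = s ^ d * ∑ i, f i * t ^ (i : ℕ) := by
    apply RingOfIntegers.ext
    change algebraMap (𝓞 K) K (f (Fin.last d) * RingOfIntegers.norm K z) =
      algebraMap (𝓞 K) K (s ^ d * ∑ i, f i * t ^ (i : ℕ))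
    change algebraMap (𝓞 K) K (RingOfIntegers.norm K z) = _ at hN
    rw [map_mul, map_mul, map_pow, map_sum, hN]
    have h3 := (h1 K L d f j hf).2 (t : K)
    have h4 : ∑ i, algebraMap (𝓞 K) K (f i * t ^ (i : ℕ)) = ∑ i, (f i : K) * (t : K) ^ (i : ℕ) :=
      Finset.sum_congr rfl fun i _ => by rw [map_mul, map_pow]
    rw [h4, ← h3]
    change (f (Fin.last d) : K) * _ = (s : K) ^ d * _
    ring
  have hmem : s ^ d * ∑ i, f i * t ^ (i : ℕ) ∈ v.asIdeal := by
    rw [← hO]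
    exact v.asIdeal.mul_mem_right _ hlead
  rcases v.isPrime.mem_or_mem hmem with h | h
  · exact absurd (v.isPrime.mem_of_pow_mem _ h) hsv
  · exact h

end SPL

/-- **LS-4** -/
theorem t_SPL (h1 : S_NRM) (h2 : S_BIG) : S_SPL := by
  intro K _ _ L _ _ _ d f j hf v hd hv hv2 hi
  have hp : v.asIdeal.IsPrime := v.isPrime
  obtain ⟨Q, hQ1, hQ2, hQ3⟩ := Ideal.exists_ideal_over_prime_of_isIntegral v.asIdeal (den j)
    (SPL.comap_le h1 hf v hd hv hi)
  have hQb : Q ≠ ⊥ := by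
    rintro rfl
    apply v.ne_bot
    rw [← hQ3]
    exact Ideal.comap_bot_of_injective _ (FaithfulSMul.algebraMap_injective (𝓞 K) (𝓞 L))
  have hlo : Q.LiesOver v.asIdeal := ⟨hQ3.symm⟩
  have hn2 : ¬ v.asIdeal ^ 2 ∣ Ideal.relNorm (𝓞 K) (den j) := fun h =>
    hv2 (h2 K L d f j hf v hd 2 h)
  have hQd : Q ∣ den j := Ideal.dvd_iff_le.2 hQ1
  obtain ⟨k, hk⟩ := Ideal.exists_relNorm_eq_pow_of_isPrime Q v.asIdeal
  have hnn : Ideal.absNorm (Ideal.relNorm (𝓞 K) Q) = Ideal.absNorm Q :=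
    Ideal.absNorm_relNorm (𝓞 K) (𝓞 L) Q
  have hk1 : k = 1 := by
    by_contra hne
    rcases Nat.lt_or_ge k 1 with h0 | h0
    · have : k = 0 := by omega
      rw [hk, this, pow_zero, Ideal.one_eq_top, Ideal.absNorm_top] at hnn
      exact hQ2.ne_top (Ideal.absNorm_eq_one_iff.1 hnn.symm)
    · apply hn2
      refine (pow_dvd_pow v.asIdeal (show 2 ≤ k by omega)).trans ?_
      rw [← hk]
      exact map_dvd _ hQd
  rw [hk1, pow_one] at hk
  refine ⟨⟨Q, hQ2, hQb⟩, hQ3, ?_, hQd, fun h => hn2 ?_⟩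
  · show Ideal.absNorm Q = _
    rw [← hnn, hk]
  · rw [← hk, ← map_pow]
    exact map_dvd _ h

end Pool.Agent.NH52.LS
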