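import Pool.Agent.NH52.LS.Stm
import Pool.Agent.Y733.LS.Fin

/-!
# Roots of random polynomials: the statements which use the library for elliptic curves
-/

set_option autoImplicit false
set_option linter.unusedSectionVars false

namespace Pool.Agent.NH52.LS

open NumberField IsDedekindDomain Pool.Agent.H691R3 Pool.Agent.W223.AK Pool.Agent.Y733.LS Pool.Agent.Y733.UD
  Pool.Agent.TH942 Pool.Agent.TH910.LS

/-- a point of order two: few simple poles -/
def S_TWO : Prop :=
  ∃ C : ℝ, 0 ≤ C ∧ ∀ (K : Type) [Field K] [NumberField K] (j : K), Two j →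
    sp j ≤ ht j / 3 + Module.finrank ℚ K * C

/-- the simple poles in the two languages -/
def S_GLU : Prop :=
  ∀ (L : Type) [Field L] [NumberField L] (j : L) (S : Finset (HeightOneSpectrum (𝓞 L))), den j ≠ ⊥ →
    (∀ w ∈ S, SPole j w) → ∑ w ∈ S, Real.log (Ideal.absNorm w.asIdeal) ≤ sp j

/-- many simple poles: the lower bound for all curves of invariant `j` -/
def S_LSP : Prop :=
  ∃ c L₀ : ℝ, 0 < c ∧ 0 < L₀ ∧ ∀ (K : Type) [Field K] [NumberField K] (j : K),
    3 / 4 * ht j ≤ sp j → Module.finrank ℚ K * L₀ ≤ ht j → LSP c j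

end Pool.Agent.NH52.LS
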