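import Pool.Agent.NH52.LS.Stm2

/-!
# A point of order two: few simple poles (`S_TWO`)
-/

set_option autoImplicit false
set_option linter.unusedSectionVars false

namespace Pool.Agent.NH52.LS

open NumberField IsDedekindDomain Pool.Agent.H691R3 Pool.Agent.W223.AK Pool.Agent.Y733.LS Pool.Agent.Y733.UD
  Pool.Agent.TH942 Pool.Agent.TH910.LS

namespace TwoAux

variable {K : Type} [Field K] [NumberField K]

/-- the local statement -/
theorem loc {α : K} (hg : (α + 3) ^ 2 * (4 * α + 3) ≠ 0) {v : Pr K} (h : Sp (jt α) v) :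
    Real.log (Nv v) ≤ Real.log (max (fv v (4 * α + 3)⁻¹) 1) := by
  obtain ⟨h2, h3, hj⟩ := h
  have hN := Nv_one_lt v
  have hN0 := Nv_pos v
  have hn := fv_Na v
  have hs0 : α + 3 ≠ 0 := fun h => hg (by rw [h]; ring)
  have hu0 : 4 * α + 3 ≠ 0 := fun h => hg (by rw [h, mul_zero])
  have h6912 : fv v (6912 : K) = 1 := by
    have : (6912 : K) = 2 ^ 8 * 3 ^ 3 := by norm_num
    rw [this, map_mul, map_pow, map_pow, h2, h3]
    norm_num
  have h4 : fv v (4 : K) = 1 := by
    have : (4 : K) = 2 ^ 2 := by norm_num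
    rw [this, map_pow, h2]
    norm_num
  have h9 : fv v (9 : K) = 1 := by
    have : (9 : K) = 3 ^ 2 := by norm_num
    rw [this, map_pow, h3]
    norm_num
  have ps : 0 < fv v (α + 3) := (fv v).pos hs0
  have pu : 0 < fv v (4 * α + 3) := (fv v).pos hu0
  have e : fv v α ^ 3 = Nv v * (fv v (α + 3) ^ 2 * fv v (4 * α + 3)) := by
    have h5 : fv v (jt α) = fv v α ^ 3 / (fv v (α + 3) ^ 2 * fv v (4 * α + 3)) := by
      unfold jt
      rw [map_div₀, map_mul, map_mul, map_pow, map_pow, h6912, one_mul]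
    rw [hj] at h5
    rw [h5, div_mul_cancel₀]
    positivity
  have h4a : fv v (4 * α) = fv v α := by rw [map_mul, h4, one_mul]
  have ha : fv v α ≤ 1 := by
    by_contra hcon
    push Not at hcon
    have e1 : fv v (α + 3) = fv v α := hn.eq (by rw [h3]; exact hcon)
    have e2 : fv v (4 * α + 3) = fv v α := by
      rw [← h4a]
      exact hn.eq (by rw [h3, h4a]; exact hcon)
    rw [e1, e2] at e
    have h5 : 0 < fv v α ^ 3 := by positivity
    nlinarith
  have hs : fv v (α + 3) ≤ 1 := hn.le_add ha h3.le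
  have hu : fv v (4 * α + 3) ≤ 1 := hn.le_add (by rw [h4a]; exact ha) h3.le
  have hs1 : fv v (α + 3) = 1 := by
    by_contra hcon
    have hlt : fv v (α + 3) < 1 := lt_of_le_of_ne hs hcon
    have e1 : fv v α = 1 := by
      have h5 : α = -3 + (α + 3) := by ring
      rw [h5, hn.eq (by rw [map_neg_eq_map, h3]; exact hlt), map_neg_eq_map, h3]
    have e2 : fv v (4 * α + 3) = 1 := by
      have h5 : 4 * α + 3 = -9 + 4 * (α + 3) := by ring
      rw [h5, hn.eq (by rw [map_neg_eq_map, h9, map_mul, h4, one_mul]; exact hlt),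
        map_neg_eq_map, h9]
    obtain ⟨m, hm⟩ := fv_zpow v hs0
    rw [e1, e2, hm, mul_one, one_pow, ← zpow_natCast, ← zpow_mul, ← zpow_one_add₀ hN0.ne'] at e
    rcases lt_trichotomy (1 + m * ((2 : ℕ) : ℤ)) 0 with h5 | h5 | h5
    · have := zpow_lt_one_of_neg₀ hN h5
      rw [← e] at this
      exact lt_irrefl _ this
    · push_cast at h5
      omega
    · have := one_lt_zpow₀ hN h5
      rw [← e] at this
      exact lt_irrefl _ this
  rw [hs1, one_pow, one_mul] at e
  have hu1 : fv v (4 * α + 3) < 1 := by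
    by_contra hcon
    have h5 : fv v (4 * α + 3) = 1 := le_antisymm hu (not_lt.1 hcon)
    rw [h5, mul_one] at e
    have h6 : fv v α ^ 3 ≤ 1 := pow_le_one₀ ((fv v).nonneg _) ha
    linarith
  have e1 : fv v α = 1 := by
    rw [← h4a]
    have h5 : 4 * α = -3 + (4 * α + 3) := by ring
    rw [h5, hn.eq (by rw [map_neg_eq_map, h3]; exact hu1), map_neg_eq_map, h3]
  rw [e1, one_pow] at e
  refine Real.log_le_log hN0 (le_max_of_le_left ?_)
  rw [map_inv₀]
  refine le_of_eq ?_
  field_simp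
  linarith

theorem ht_inv (z : K) : ht z⁻¹ = ht z := by
  rw [ht_eq_Sa, ht_eq_Sa, ← logHeight_eq, ← logHeight_eq, Height.logHeight₁_inv]

theorem ht_lin (α : K) : ht (4 * α + 3) ≤ ht α + Module.finrank ℚ K * Real.log 7 := by
  have hz : (Function.support fun _ : Pr K => (0 : ℝ)).Finite := by simp
  rw [ht_eq_Sa, ht_eq_Sa, ← Sm_const]
  unfold Sa
  rw [← Sm_add (Fs_ht α) hz]
  apply Sm_mono (Fs_ht (4 * α + 3)) (supp_add (Fs_ht α) hz)
  · intro w
    have hm : 0 < max (w.1 α) 1 := lt_max_of_lt_right one_pos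
    rw [← Real.log_mul hm.ne' (by norm_num)]
    apply Real.log_le_log (lt_max_of_lt_right one_pos)
    have h1 : w.1 (4 * α + 3) ≤ 4 * w.1 α + 3 := by
      refine (w.1.add_le _ _).trans ?_
      have h4 := inf_nat w 4
      have h3 := inf_nat w 3
      push_cast at h4 h3
      rw [map_mul, h4, h3]
    have h2 := le_max_left (w.1 α) 1
    have h3 := le_max_right (w.1 α) 1
    refine max_le ?_ ?_ <;> linarith
  · intro v
    have hm : 0 < max (fv v α) 1 := lt_max_of_lt_right one_pos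
    rw [add_zero]
    apply Real.log_le_log (lt_max_of_lt_right one_pos)
    have hn := fv_Na v
    refine max_le (hn.le_add ?_ ?_) (le_max_right _ _)
    · rw [map_mul]
      have h4 : fv v (4 : K) ≤ 1 := hn.ofNat 4
      have h5 := (fv v).nonneg α
      have h6 := (fv v).nonneg (4 : K)
      calc fv v 4 * fv v α ≤ 1 * fv v α := mul_le_mul_of_nonneg_right h4 h5
        _ ≤ _ := by rw [one_mul]; exact le_max_left _ _
    · exact (hn.ofNat 3).trans (le_max_right _ _)

theorem sp_le_ht {α : K} (hg : (α + 3) ^ 2 * (4 * α + 3) ≠ 0) :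
    sp (jt α) ≤ ht (4 * α + 3)⁻¹ := by
  classical
  rw [ht_eq_Sa]
  unfold sp Sa Sm
  have h1 : ∑ᶠ v : Pr K, (if Sp (jt α) v then Real.log (Nv v) else 0) ≤
      ∑ᶠ v : Pr K, Real.log (max (fv v (4 * α + 3)⁻¹) 1) := by
    refine finsum_le_finsum' (Fs_sp (jt α)) (Fs_ht _) fun v => ?_
    split_ifs with h
    · exact loc hg h
    · exact Real.log_nonneg (le_max_right _ _)
  have h2 : 0 ≤ ∑ w : InfinitePlace K, (w.mult : ℝ) * Real.log (max (w.1 (4 * α + 3)⁻¹) 1) :=
    Finset.sum_nonneg fun w _ => mul_nonneg (Nat.cast_nonneg _)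
      (Real.log_nonneg (le_max_right _ _))
  linarith

end TwoAux

/-- a point of order two: few simple poles -/
theorem t_TWO : S_TWO := by
  have l1 : 0 ≤ Real.log ((27 * 6912 : ℕ) : ℝ) := Real.log_natCast_nonneg _
  have l2 : 0 ≤ Real.log 7 := Real.log_nonneg (by norm_num)
  refine ⟨Real.log ((27 * 6912 : ℕ) : ℝ) / 3 + Real.log 7, by positivity, ?_⟩
  intro K _ _ j hj
  obtain ⟨α, _, _, hg, rfl⟩ := hj
  have h1 := TwoAux.sp_le_ht hg
  have h2 := TwoAux.ht_lin α
  have h3 := ht_jt hg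
  rw [TwoAux.ht_inv] at h1
  generalize Real.log ((27 * 6912 : ℕ) : ℝ) = l at h3 ⊢
  linarith

end Pool.Agent.NH52.LS
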